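import Pool.Agent.Lib.MP_688fd0_co.SQ5.H76.RunB

/-!
MP_688fd0_co, type C2, FAR-3, design B' (finding 4349), row LAM (helper48): four consecutive a-runs in a regular layout
(`stretch_lam`): the hypotheses `hrp`, `hrE` of `lam_nodes` / `lam_fin`.
-/

set_option autoImplicit false

namespace Pool.Agent.Lib.MP_688fd0_co.SQ5.H48

open Pool.Agent.Lib.MP_688fd0_co.SQ5.H76

variable {L : AddSubgroup (ℤ × ℤ)} {M R : ℕ} {dc : ℕ → ℤ} {spc : ℕ → Prop} {Gr : ℤ} {g : Geo L M R dc spc Gr}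

/-- FOUR CONSECUTIVE a-RUNS. -/
theorem stretch_lam {kq h ρ : ℤ} {ty : Bool} (r : Reg g.w kq h ρ ty) (hc : 0 ≤ g.i0 - g.j0) (hk : 1 ≤ kq) (hh : 4 ≤ h)
    {e : ℕ} (he : (e : ℤ) ∣ kq) : ∃ z1 : ℤ, 0 ≤ z1 ∧ z1 + 3 < g.w.Et ∧ (∀ z, z1 ≤ z → z ≤ z1 + 3 → g.rp z % 8 = 0) ∧
      ∀ z, z1 ≤ z → z ≤ z1 + 2 → ∃ n : ℕ, (g.rE z : ℤ) + 1 = 8 * e * n + 3 := by
  have hEt := r.hEt
  have hρ := r.ρ0
  have ha0 : 0 ≤ Reg.a0 h ρ ty ∧ Reg.a0 h ρ ty ≤ 2 * h + ρ := by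
    unfold Reg.a0
    split_ifs <;> omega
  refine ⟨Reg.a0 h ρ ty + 1, by omega, by omega, ?_, ?_⟩
  · intro z h0 h1
    have h2 := r.aev_stretch hc (by omega) (q := 0) (i := z - 1 - Reg.a0 h ρ ty) (by omega) (by omega)
    have e1 : 0 * g.w.Et + Reg.a0 h ρ ty + (z - 1 - Reg.a0 h ρ ty) = z - 1 := by ring
    rw [e1] at h2
    have h3 : (g.w.e (z - 1) - 3 * (z - 1)) % 8 = 2 := h2
    unfold Geo.rp Geo.rs
    omega
  · intro z h0 h1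
    have h2 := r.run_stretch hc (by omega) (q := 0) (i := z - 1 - Reg.a0 h ρ ty) (by omega) (by omega)
    have e1 : 0 * g.w.Et + Reg.a0 h ρ ty + (z - 1 - Reg.a0 h ρ ty) = z - 1 := by ring
    rw [e1, sub_add_cancel] at h2
    have h3 := g.rE_eq z
    obtain ⟨d, hd⟩ := he
    obtain ⟨b, hb⟩ := Int.dvd_of_emod_eq_zero h2
    have h4 : (g.rE z : ℤ) + 1 = 8 * e * (d * b) + 3 := by
      rw [h3, hd] at *
      linarith
    have h5 : (0 : ℤ) ≤ g.rE z := Int.natCast_nonneg _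
    have h6 : 0 ≤ d * b ∨ d * b < 0 := le_or_gt _ _
    have he1 : (1 : ℤ) ≤ e := by
      rcases Nat.eq_zero_or_pos e with h7 | h7
      · rw [h7, Nat.cast_zero, zero_mul] at hd
        omega
      · exact_mod_cast h7
    rcases h6 with h6 | h6
    · exact ⟨(d * b).toNat, by rw [Int.toNat_of_nonneg h6]; exact h4⟩
    · exfalso
      nlinarith

end Pool.Agent.Lib.MP_688fd0_co.SQ5.H48
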