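import Pool.Agent.Lib.MP_688fd0_co.SQ5.H48.LamP

/-!
MP_688fd0_co, type C2, FAR-3, design B' (finding 4349), row LAM (helper48): FOUR CONSECUTIVE a-RUNS OF THE LAYOUT ARE CONNECTED
(`lam_plane`, in the notation of helper76's RunB.lean: runs `H.bd z`, levels `g.rs z .. g.rs z + g.rE z`).
-/

set_option autoImplicit false

namespace Pool.Agent.Lib.MP_688fd0_co.SQ5.H48

open Pool.Agent.Lib.MP_688fd0_co.OSF
open Pool.Agent.Lib.MP_688fd0_co.SQ5.H20
open Pool.Agent.Lib.MP_688fd0_co.SQ5.H76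
open Pool.Agent.Lib.MP_688fd0_co.SQ5.H76.Bd (KK LL)
open Subgroup
open scoped commutatorElement

universe u v

variable {L : AddSubgroup (ℤ × ℤ)} {M R : ℕ} {dc : ℕ → ℤ} {spc : ℕ → Prop} {G : ℤ} {g : Geo L M R dc spc G}
  {m0 : ℕ} {hw : ℤ → ℕ}

section words

variable (H : Geo.Mn g m0 hw) {z : ℤ} (hz : g.rp z % 8 = 0)

include hz in
theorem bd_b (m : ℤ) : (H.bd z).b (g.rs z + m) = bw m := by
  show bw (g.rp z + (g.rs z + m - g.rs z)) = bw m
  exact bw_congr (by omega)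

include hz in
theorem bd_cs (m : ℤ) : (H.bd z).cs (g.rs z + m) = col m := by
  show col (g.rp z + (g.rs z + m - g.rs z)) = col m
  exact col_congr (by omega)

theorem bd_hw (K : ℤ) : (H.bd z).hw K = hw K := rfl

variable {Q : Type u} [Group Q] {q : L3 → Q} (hq : ∀ i, q i * q i = 1)

include hz hq in
/-- The step of a strand. -/
theorem stp_stw (r0 κ m : ℤ) : (H.bd z).stp q κ (g.rs z + m) =
    stw (q .a * q .t) (q .a * q .b) (cnn hw r0) (κ - r0) m := by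
  have hsp : (H.bd z).sp κ (g.rs z + m) = κ - col m - if bw m = true then 1 else 0 := by
    unfold Bd.sp
    rw [bd_b H hz, bd_cs H hz]
  have c5 := col_succ m
  rw [(H.bd z).stp_eq hq, bd_b H hz, hsp, bd_hw, step_word hq (bw m) (H.pos _), LL_Lt hq]
  unfold stw
  congr 2
  cases hb : bw m
  · rw [hb] at c5
    simp only [Bool.false_eq_true, if_false] at c5 ⊢
    have h1 := cnn_succ hw r0 (κ - r0 - col m)
    have e1 : κ - r0 - col m + 1 = κ - r0 - col (m + 1) := by omega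
    have e2 : r0 + (κ - r0 - col m) = κ - col m - 0 := by ring
    rw [e1, e2] at h1
    omega
  · rw [hb] at c5
    simp only [if_true] at c5 ⊢
    have h1 := cnn_succ hw r0 (κ - r0 - col m - 1)
    have e1 : κ - r0 - col m - 1 + 1 = κ - r0 - col m := by ring
    have e2 : r0 + (κ - r0 - col m - 1) = κ - col m - 1 := by ring
    have e3 : κ - r0 - col m - 1 = κ - r0 - col (m + 1) := by omega
    rw [e1, e2, e3] at h1
    omega

include hz hq in
/-- The word of a strand. -/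
theorem pos_Pk (r0 κ m : ℤ) : (H.bd z).pos q (g.rs z) κ m 0 = Pk (q .a * q .t) (q .a * q .b) (cnn hw r0) (κ - r0) m := by
  unfold Bd.pos Pk
  rw [Bd.lw_zero, mul_one]
  refine gz_congr (fun i => ?_) m
  rw [zero_add]
  exact stp_stw H hz hq r0 κ i

/-- The white wall sites. -/
theorem st_lv (D : Bd) (κ s : ℤ) : D.st κ s 0 = Pat.lv s (D.I.C (κ - D.cs s) s) := by
  unfold Bd.st Pat.si Pat.sc Bd.sp
  rw [D.hb]
  cases D.b s
  · simp
  · simp

/-- The columns of the walls. -/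
theorem C_cnn (D : Bd) (r0 : ℤ) (hD : ∀ K, D.hw K = hw K) (s K : ℤ) :
    D.I.C (r0 + K) s = D.I.C (r0 + 2) s + 2 * cnn hw r0 K := by
  have up : ∀ i : ℕ, D.I.C (r0 + (2 + i)) s = D.I.C (r0 + 2) s + 2 * cnn hw r0 (2 + i) := by
    intro i
    induction i with
    | zero => rw [Nat.cast_zero, add_zero, cnn_two]; ring
    | succ i ih =>
      have e1 : r0 + (2 + ((i + 1 : ℕ) : ℤ)) = r0 + (2 + i) + 1 := by push_cast; ring
      have e2 : 2 + ((i + 1 : ℕ) : ℤ) = 2 + i + 1 := by push_cast; ring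
      rw [e1, D.hC, ih, e2, cnn_succ, hD]
      ring
  have down : ∀ i : ℕ, D.I.C (r0 + (2 - i)) s = D.I.C (r0 + 2) s + 2 * cnn hw r0 (2 - i) := by
    intro i
    induction i with
    | zero => rw [Nat.cast_zero, sub_zero, cnn_two]; ring
    | succ i ih =>
      have h1 := D.hC (r0 + (2 - ((i + 1 : ℕ) : ℤ))) s
      have h2 := cnn_succ hw r0 (2 - ((i + 1 : ℕ) : ℤ))
      have e1 : r0 + (2 - ((i + 1 : ℕ) : ℤ)) + 1 = r0 + (2 - i) := by push_cast; ring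
      have e2 : 2 - ((i + 1 : ℕ) : ℤ) + 1 = 2 - i := by push_cast; ring
      rw [e1, ih, hD] at h1
      rw [e2] at h2
      rw [h2] at h1
      linarith
  rcases le_total 2 K with h | h
  · obtain ⟨i, hi⟩ := Int.eq_ofNat_of_zero_le (sub_nonneg.2 h)
    have := up i
    rwa [← hi, show 2 + (K - 2) = K by ring] at this
  · obtain ⟨i, hi⟩ := Int.eq_ofNat_of_zero_le (sub_nonneg.2 h)
    have := down i
    rwa [← hi, show 2 - (2 - K) = K by ring] at this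

end words

section main

variable (H : Geo.Mn g m0 hw) {Q : Type u} [Group Q] {B : Lb.{u, v} Q} {l : L3 → B.L} (c : Cov B l L)
  (hi : ∀ i, B.inv (l i) = l i)

/-- `y` lies over the white site of the wall `r0 + 2` at the first level of the run `z`. -/
def OkP (r0 z : ℤ) (y : Q) : Prop := c.Over y (Pat.lv (g.rs z) ((H.bd z).I.C (r0 + 2) (g.rs z)))

include hi in
/-- The nodes. -/
theorem okP_iff {z : ℤ} (hz : g.rp z % 8 = 0) (r0 κ : ℤ) (x : Q) :
    c.Over x ((H.bd z).st κ (g.rs z) 0) ↔ OkP H c r0 z (x * ((qq B l .a * qq B l .b) ^ cnn hw r0 (κ - r0))⁻¹) := by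
  have h0 : (H.bd z).cs (g.rs z) = 0 := by
    have := bd_cs H hz 0
    rw [add_zero] at this
    rw [this]
    simp [col]
  have h1 := C_cnn (H.bd z) r0 (fun _ => rfl) (g.rs z) (κ - r0)
  rw [add_sub_cancel] at h1
  have hp := (H.bd z).I.par (r0 + 2) (g.rs z)
  have h2 := ((dsp_s c hi).zpow (cnn hw r0 (κ - r0))).2 (x * ((qq B l .a * qq B l .b) ^ cnn hw r0 (κ - r0))⁻¹)
    (g.rs z) ((H.bd z).I.C (r0 + 2) (g.rs z)) hp
  rw [inv_mul_cancel_right, mul_zero, add_zero] at h2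
  unfold OkP
  rw [st_lv, h0, sub_zero, h1, mul_comm 2]
  exact h2

/-- The first level of the next run. -/
theorem rs_succ (z : ℤ) : g.rs (z + 1) = g.rs z + g.rE z + 1 := by
  rw [g.rs_add]
  unfold Geo.rs
  rw [add_sub_cancel_right]

/-- The column of a wall at the first level of the next run. -/
theorem C_next {z K : ℤ} (h0 : 0 ≤ K) (h1 : K ≤ m0) :
    (H.bd (z + 1)).I.C K (g.rs (z + 1)) = (H.bd z).I.C K (g.rs z) + ((H.bd z).cs (g.rs z + g.rE z + 1) - (H.bd z).cs (g.rs z)) := by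
  have h2 := (H.fit (z + 1)).C K h0 h1
  have h3 := (H.fit z).C' K (g.rE z + 1) h0 h1 le_rfl
  have e1 : g.rs z + ((g.rE z + 1 : ℕ) : ℤ) = g.rs (z + 1) := by
    rw [rs_succ]
    push_cast
    ring
  rw [e1] at h3
  rw [← h2, h3]
  have e2 : g.rs z + g.rE z + 1 = g.rs (z + 1) := by rw [rs_succ]
  rw [e2]
  show g.C 0 (g.rs z) - col (g.rp z) + (H.bd z).cs (g.rs (z + 1)) + 2 * isum hw 0 K =
    g.C 0 (g.rs z) - col (g.rp z) + (H.bd z).cs (g.rs z) + 2 * isum hw 0 K +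
      ((H.bd z).cs (g.rs (z + 1)) - (H.bd z).cs (g.rs z))
  ring

include hi in
/-- The event. -/
theorem okP_ev {W : ℤ → Q} {zc : Q} {e : ℕ} (hW : LamW (qq B l .a * qq B l .t) (qq B l .a * qq B l .b) zc W e)
    {z : ℤ} (hz : g.rp z % 8 = 0) {n : ℕ} (hE : (g.rE z : ℤ) + 1 = 8 * e * n + 3) {r0 : ℤ} (h0 : 0 ≤ r0) (h1 : r0 + 2 ≤ m0)
    (y : Q) : OkP H c r0 z y ↔ OkP H c r0 (z + 1) (y * zc ^ n * W 3) := by
  have hp := (H.bd z).I.par (r0 + 2) (g.rs z)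
  have h2 := (dsp_W c hi hW (8 * e * n + 3)).2 y (g.rs z) ((H.bd z).I.C (r0 + 2) (g.rs z)) hp
  have e1 : W (8 * e * n + 3) = zc ^ n * W 3 := by
    have := W_per hW 3 n
    rw [zpow_natCast] at this
    rw [← this, add_comm]
  have e2 : g.rs z + (8 * e * n + 3) = g.rs (z + 1) := by
    rw [rs_succ, ← hE]
    ring
  have c1 : (H.bd z).cs (g.rs z) = 0 := by
    have := bd_cs H hz 0
    rw [add_zero] at this
    rw [this]
    simp [col]
  have c2 : (H.bd z).cs (g.rs z + g.rE z + 1) = col (8 * e * n + 3) := by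
    have := bd_cs H hz (8 * e * n + 3)
    rw [← this, ← hE]
    congr 1
    ring
  have e3 := C_next H (z := z) (K := r0 + 2) (by omega) h1
  rw [c1, c2, sub_zero] at e3
  rw [e1, e2, ← e3, ← mul_assoc] at h2
  exact h2.symm

include hi in
/-- ROW LAM: FOUR CONSECUTIVE a-RUNS ARE CONNECTED. `N` cyclic normal of order prime to its index, `N.index ∣ e`; the walls
`r0 + 1 .. r0 + w` at distances 4, the strips `r0`, `r0 + w` of widths = 2 mod 4, one of them of width 6. Nodes: run `z`, strand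
`κ ∈ [r0 + 2, r0 + w + 1]`, `x` over its start site. `Rel` contains the rungs of the blocks `j0 .. j0 + 8 e` and the events for
`κ ∈ [r0 + 4, r0 + w]`. -/
theorem lam_plane' [Finite Q] (N : Subgroup Q) [N.Normal] (hN : IsCyclic N) (hco : (Nat.card N).Coprime N.index)
    {e : ℕ} (he : N.index ∣ e) (e0 : 0 < e) {r0 w : ℤ} (hr0 : 0 ≤ r0) (hr2 : r0 + 2 ≤ m0) (hw2 : (e : ℤ) + 2 ≤ w)
    (hw4 : 4 ≤ w) (hm : ∀ K, r0 < K → K < r0 + w → hw K = 2) (h1 : hw r0 % 2 = 1) (h2 : hw (r0 + w) % 2 = 1)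
    (h3 : hw r0 = 3 ∨ hw (r0 + w) = 3)
    (hF : ∀ i j y y', c.Over y (true, i, j) → c.Over y' (true, i, j) →
      y⁻¹ * y' ∈ K0 (qq B l .a * qq B l .t) (qq B l .a * qq B l .b))
    {z1 : ℤ} (hrp : ∀ z, z1 ≤ z → z ≤ z1 + 3 → g.rp z % 8 = 0)
    (hrE : ∀ z, z1 ≤ z → z ≤ z1 + 2 → ∃ n : ℕ, (g.rE z : ℤ) + 1 = 8 * e * n + 3)
    {Rel : ℤ × ℤ × Q → ℤ × ℤ × Q → Prop} (hRel : Equivalence Rel) {j0 : ℤ} (hj0 : ∃ j : ℤ, j0 = 8 * e * j)
    (R1 : ∀ z, z1 ≤ z → z ≤ z1 + 3 → ∀ κ κ' m : ℤ, r0 + 2 ≤ κ → κ ≤ r0 + w + 1 → r0 + 2 ≤ κ' → κ' ≤ r0 + w + 1 →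
      j0 ≤ m → m ≤ j0 + 8 * e → κ' = κ + (H.bd z).cs (g.rs z + (m + 1)) - (H.bd z).cs (g.rs z + m) → ∀ x x' : Q,
      c.Over x ((H.bd z).st κ (g.rs z) 0) → c.Over x' ((H.bd z).st κ' (g.rs z) 0) →
      x * (H.bd z).pos (qq B l) (g.rs z) κ m 0 * LL (qq B l) ((H.bd z).b (g.rs z + m)) =
        x' * (H.bd z).pos (qq B l) (g.rs z) κ' (m + 1) 0 → Rel (z, κ, x) (z, κ', x'))
    (R2 : ∀ z, z1 ≤ z → z ≤ z1 + 2 → ∀ κ : ℤ, r0 + 4 ≤ κ → κ ≤ r0 + w → ∀ x : Q, c.Over x ((H.bd z).st κ (g.rs z) 0) →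
      Rel (z, κ, x) (z + 1, κ - 1, x * (H.bd z).pos (qq B l) (g.rs z) κ (g.rE z + 1) 0))
    {z z' : ℤ} (hz : z1 ≤ z) (hz3 : z ≤ z1 + 3) (hz' : z1 ≤ z') (hz3' : z' ≤ z1 + 3) {κ κ' : ℤ} (k0 : r0 + 2 ≤ κ)
    (k1 : κ ≤ r0 + w + 1) (k0' : r0 + 2 ≤ κ') (k1' : κ' ≤ r0 + w + 1) {x x' : Q}
    (hx : c.Over x ((H.bd z).st κ (g.rs z) 0)) (hx' : c.Over x' ((H.bd z').st κ' (g.rs z') 0)) :
    Rel (z, κ, x) (z', κ', x') := by
  have hq : ∀ i, qq B l i * qq B l i = 1 := fun i => q_sq hi i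
  set al := qq B l .a * qq B l .t with hal
  set s := qq B l .a * qq B l .b with hs
  -- the wall word
  obtain ⟨zc, -, ca, cb, hL, -, -⟩ := closing N hN hco (hq .a) (hq .b) (hq .t) he
  have hLt : Lt al s = LG (qq B l .a) (qq B l .b) (qq B l .t) := Lt_LG (hq .a) (hq .b)
  rw [← hLt] at hL
  have hib : (qq B l .b)⁻¹ = qq B l .b := inv_eq_of_mul_eq_one_left (hq .b)
  have hit : (qq B l .t)⁻¹ = qq B l .t := inv_eq_of_mul_eq_one_left (hq .t)
  have hcs : Commute zc s := by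
    have a1 : Commute zc al := ca.symm
    have a2 : Commute zc (qq B l .b * qq B l .t) := cb.symm
    have a3 : s = al * (qq B l .b * qq B l .t)⁻¹ := by
      rw [mul_inv_rev, hib, hit, hal, hs, mul_assoc, ← mul_assoc (qq B l .t), hq, one_mul]
    rw [a3]
    exact a1.mul_right a2.inv_right
  have hWst : ∀ m, gz (Lt al s) 0 (m + 1) = gz (Lt al s) 0 m * Lt al s m := fun m => by rw [gz_succ, zero_add]
  have hper8 : ∀ m : ℤ, Lt al s (m + 8 * e) = Lt al s m := by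
    intro m
    have := Lt_per' (al := al) (s := s) m e 1
    rwa [mul_one] at this
  have hW : LamW al s zc (gz (Lt al s) 0) e :=
    { z := gz_zero _ _
      st := hWst
      per := gz_per _ _ _ hper8 (by
        have h3 := gz_nat (Lt al s) 0 (8 * e)
        push_cast at h3
        rw [h3, hL])
      ca := ca.symm
      cs := hcs }
  have hc : Cols (cnn hw r0) w := cnn_cols (by omega) hm h1 h2 h3
  -- run lengths
  have hl : ∀ i : ℕ, ∃ n : ℕ, i ≤ 2 → (g.rE (z1 + i) : ℤ) + 1 = 8 * e * n + 3 := by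
    intro i
    by_cases hi2 : i ≤ 2
    · obtain ⟨n, hn⟩ := hrE (z1 + i) (by omega) (by omega)
      exact ⟨n, fun _ => hn⟩
    · exact ⟨0, fun h => absurd h hi2⟩
  choose ln hln using hl
  -- the relation
  let Rel' : ℕ × ℤ × Q → ℕ × ℤ × Q → Prop := fun p p' =>
    Rel (z1 + p.1, r0 + p.2.1, p.2.2) (z1 + p'.1, r0 + p'.2.1, p'.2.2)
  have D : LamD al s zc (gz (Lt al s) 0) (cnn hw r0) w e j0 ln (fun z y => OkP H c r0 (z1 + z) y) Rel' :=
    { eqv := ⟨fun _ => hRel.refl _, fun h => hRel.symm h, fun h h' => hRel.trans h h'⟩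
      m00 := hj0
      K := by
        intro z y g' hg h
        have h4 := (dsp_K0 c hi hg).2 y (g.rs (z1 + z)) ((H.bd (z1 + z)).I.C (r0 + 2) (g.rs (z1 + z)))
          ((H.bd (z1 + z)).I.par _ _)
        rw [add_zero, add_zero] at h4
        exact h4.2 h
      Ev := by
        intro z hz y
        have h4 := okP_ev H c hi hW (hrp (z1 + z) (by omega) (by omega)) (hln z hz) hr0 hr2 y
        have e1 : z1 + (z : ℤ) + 1 = z1 + ((z + 1 : ℕ) : ℤ) := by push_cast; ring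
        rw [e1] at h4
        exact h4
      R1 := by
        intro z hz κ κ' m a0 a1 a2 a3 a4 a5 a6 x x' hx hx' hxx
        have hp := hrp (z1 + z) (by omega) (by omega)
        refine R1 (z1 + z) (by omega) (by omega) (r0 + κ) (r0 + κ') m (by omega) (by omega) (by omega) (by omega) a4 a5 ?_
          x x' ?_ ?_ ?_
        · rw [bd_cs H hp, bd_cs H hp]
          omega
        · rw [okP_iff H c hi hp r0, add_sub_cancel_left]
          exact hx
        · rw [okP_iff H c hi hp r0, add_sub_cancel_left]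
          exact hx'
        · rw [pos_Pk H hp hq r0, pos_Pk H hp hq r0, add_sub_cancel_left, add_sub_cancel_left, bd_b H hp, LL_Lt hq]
          exact hxx
      R2 := by
        intro z hz κ a0 a1 x hx
        have hp := hrp (z1 + z) (by omega) (by omega)
        have h4 := R2 (z1 + z) (by omega) (by omega) (r0 + κ) (by omega) (by omega) x (by
          rw [okP_iff H c hi hp r0, add_sub_cancel_left]
          exact hx)
        rw [pos_Pk H hp hq r0, add_sub_cancel_left, hln z hz] at h4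
        have e1 : z1 + (z : ℤ) + 1 = z1 + ((z + 1 : ℕ) : ℤ) := by push_cast; ring
        have e2 : r0 + κ - 1 = r0 + (κ - 1) := by ring
        rw [e1, e2] at h4
        exact h4 }
  obtain ⟨i, hi1⟩ := Int.eq_ofNat_of_zero_le (sub_nonneg.2 hz)
  obtain ⟨i', hi1'⟩ := Int.eq_ofNat_of_zero_le (sub_nonneg.2 hz')
  have ez : z = z1 + i := by omega
  have ez' : z' = z1 + i' := by omega
  have hp := hrp z hz hz3
  have hp' := hrp z' hz' hz3'
  have hlast := lamD_conn N hN hco (hq .a) (hq .b) (hq .t) he e0 hW hc hw2 hw4 D (fun y y' hy hy' => by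
      have hp := (H.bd (z1 + (0 : ℕ))).I.par (r0 + 2) (g.rs (z1 + (0 : ℕ)))
      have hy : c.Over y _ := hy
      have hy' : c.Over y' _ := hy'
      rw [Pat.lv_even hp] at hy hy'
      exact hF _ _ y y' hy hy')
    (z := i) (z' := i') (by omega) (by omega) (κ := κ - r0) (κ' := κ' - r0) (by omega) (by omega) (by omega) (by omega)
    (x := x) (x' := x') (by
      show OkP H c r0 (z1 + i) _
      rw [← ez]
      exact (okP_iff H c hi hp r0 κ x).1 hx) (by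
      show OkP H c r0 (z1 + i') _
      rw [← ez']
      exact (okP_iff H c hi hp' r0 κ' x').1 hx')
  have hfin : Rel (z1 + i, r0 + (κ - r0), x) (z1 + i', r0 + (κ' - r0), x') := hlast
  rwa [← ez, ← ez', add_sub_cancel, add_sub_cancel] at hfin

include hi in
/-- The same with `hF` for all sites. -/
theorem lam_plane [Finite Q] (N : Subgroup Q) [N.Normal] (hN : IsCyclic N) (hco : (Nat.card N).Coprime N.index)
    {e : ℕ} (he : N.index ∣ e) (e0 : 0 < e) {r0 w : ℤ} (hr0 : 0 ≤ r0) (hr2 : r0 + 2 ≤ m0) (hw2 : (e : ℤ) + 2 ≤ w)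
    (hw4 : 4 ≤ w) (hm : ∀ K, r0 < K → K < r0 + w → hw K = 2) (h1 : hw r0 % 2 = 1) (h2 : hw (r0 + w) % 2 = 1)
    (h3 : hw r0 = 3 ∨ hw (r0 + w) = 3)
    (hF : ∀ v y y', c.Over y v → c.Over y' v → y⁻¹ * y' ∈ K0 (qq B l .a * qq B l .t) (qq B l .a * qq B l .b))
    {z1 : ℤ} (hrp : ∀ z, z1 ≤ z → z ≤ z1 + 3 → g.rp z % 8 = 0)
    (hrE : ∀ z, z1 ≤ z → z ≤ z1 + 2 → ∃ n : ℕ, (g.rE z : ℤ) + 1 = 8 * e * n + 3)
    {Rel : ℤ × ℤ × Q → ℤ × ℤ × Q → Prop} (hRel : Equivalence Rel) {j0 : ℤ} (hj0 : ∃ j : ℤ, j0 = 8 * e * j)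
    (R1 : ∀ z, z1 ≤ z → z ≤ z1 + 3 → ∀ κ κ' m : ℤ, r0 + 2 ≤ κ → κ ≤ r0 + w + 1 → r0 + 2 ≤ κ' → κ' ≤ r0 + w + 1 →
      j0 ≤ m → m ≤ j0 + 8 * e → κ' = κ + (H.bd z).cs (g.rs z + (m + 1)) - (H.bd z).cs (g.rs z + m) → ∀ x x' : Q,
      c.Over x ((H.bd z).st κ (g.rs z) 0) → c.Over x' ((H.bd z).st κ' (g.rs z) 0) →
      x * (H.bd z).pos (qq B l) (g.rs z) κ m 0 * LL (qq B l) ((H.bd z).b (g.rs z + m)) =
        x' * (H.bd z).pos (qq B l) (g.rs z) κ' (m + 1) 0 → Rel (z, κ, x) (z, κ', x'))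
    (R2 : ∀ z, z1 ≤ z → z ≤ z1 + 2 → ∀ κ : ℤ, r0 + 4 ≤ κ → κ ≤ r0 + w → ∀ x : Q, c.Over x ((H.bd z).st κ (g.rs z) 0) →
      Rel (z, κ, x) (z + 1, κ - 1, x * (H.bd z).pos (qq B l) (g.rs z) κ (g.rE z + 1) 0))
    {z z' : ℤ} (hz : z1 ≤ z) (hz3 : z ≤ z1 + 3) (hz' : z1 ≤ z') (hz3' : z' ≤ z1 + 3) {κ κ' : ℤ} (k0 : r0 + 2 ≤ κ)
    (k1 : κ ≤ r0 + w + 1) (k0' : r0 + 2 ≤ κ') (k1' : κ' ≤ r0 + w + 1) {x x' : Q}
    (hx : c.Over x ((H.bd z).st κ (g.rs z) 0)) (hx' : c.Over x' ((H.bd z').st κ' (g.rs z') 0)) :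
    Rel (z, κ, x) (z', κ', x') :=
  lam_plane' H c hi N hN hco he e0 hr0 hr2 hw2 hw4 hm h1 h2 h3 (fun i j y y' => hF (true, i, j) y y') hrp hrE hRel hj0 R1
    R2 hz hz3 hz' hz3' k0 k1 k0' k1' hx hx'

end main

end Pool.Agent.Lib.MP_688fd0_co.SQ5.H48
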