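import Pool.Agent.Lib.MP_688fd0_co.SQ5.H48.Lam0

/-!
MP_688fd0_co, type C2, FAR-3, design B' (finding 4349), row LAM (helper48): THE DRIFT ELEMENT.

The strand next to a strip of width 6 moves, after `8 e` levels, by `zc * c` or `zc * c⁻¹`, where `c = [s ^ (2 e), al]` lies in the
cyclic normal subgroup `N`. So `s ^ (2 e)` commutes with the letters modulo the holonomy.
-/

set_option autoImplicit false

namespace Pool.Agent.Lib.MP_688fd0_co.SQ5.H48

open Pool.Agent.Lib.MP_688fd0_co.SQ5.H20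

/-! ### Words which centralize `N` -/

section Cent

open Subgroup

variable {G : Type*} [Group G]

/-- Conjugation in a cyclic normal subgroup is a power map. -/
theorem cyc_conj {N : Subgroup G} [N.Normal] (hN : IsCyclic N) {n : G} (hn : n ∈ N) (x : G) :
    x * n * x⁻¹ ∈ zpowers n := by
  obtain ⟨γ, hγ⟩ := IsCyclic.exists_generator (α := N)
  obtain ⟨i, hi⟩ := Subgroup.mem_zpowers_iff.1 (hγ ⟨n, hn⟩)
  obtain ⟨j, hj⟩ := Subgroup.mem_zpowers_iff.1 (hγ (MulAut.conjNormal x γ))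
  refine Subgroup.mem_zpowers_iff.2 ⟨j, ?_⟩
  have h1 : MulAut.conjNormal x (⟨n, hn⟩ : N) = (⟨n, hn⟩ : N) ^ j := by
    rw [← hi, map_zpow, ← hj, ← zpow_mul, ← zpow_mul, mul_comm]
  have h2 := congrArg (fun z : N => (z : G)) h1
  simp only [MulAut.conjNormal_apply, Subgroup.coe_zpow] at h2
  exact h2.symm

/-- An even word centralizes `N`. -/
theorem even_cent {N : Subgroup G} [N.Normal] (hN : IsCyclic N) (g : Fin 3 → G) (hg : ∀ l, g l * g l = 1)
    (w : List (Fin 3)) (hw : EvenF w) {n : G} (hn : n ∈ N) :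
    (w.map g).prod * n * ((w.map g).prod)⁻¹ = n := by
  let cg : CommGroup N := { (inferInstance : Group N) with mul_comm := cyc_mul_comm hN }
  let φ : Fin 3 → (Additive N →+ Additive N) := fun l => MonoidHom.toAdditive (MulAut.conjNormal (g l)).toMonoidHom
  have hφ : ∀ (l : Fin 3) (n : N), φ l (Additive.ofMul n) = Additive.ofMul (MulAut.conjNormal (g l) n) := fun l n => rfl
  have hcomm : ∀ l l' x, φ l (φ l' x) = φ l' (φ l x) := by
    intro l l' x
    obtain ⟨n, rfl⟩ := Additive.ofMul.surjective x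
    rw [hφ, hφ, hφ, hφ, cyc_comm hN]
  have hinv : ∀ l x, φ l (φ l x) = x := by
    intro l x
    obtain ⟨n, rfl⟩ := Additive.ofMul.surjective x
    rw [hφ, hφ, ← MulAut.mul_apply, ← map_mul, hg, map_one, MulAut.one_apply]
  have hact : ∀ (w : List (Fin 3)) (n : N), actW φ w (Additive.ofMul n) =
      Additive.ofMul (MulAut.conjNormal ((w.map g).prod) n) := by
    intro w
    induction w with
    | nil => intro n; rw [List.map_nil, List.prod_nil, map_one, MulAut.one_apply]; rfl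
    | cons l w ih =>
      intro n
      rw [List.map_cons, List.prod_cons, map_mul, MulAut.mul_apply]
      change φ l (actW φ w (Additive.ofMul n)) = _
      rw [ih, hφ]
  have h1 : MulAut.conjNormal ((w.map g).prod) (⟨n, hn⟩ : N) = ⟨n, hn⟩ := by
    apply Additive.ofMul.injective
    rw [← hact, actW_eq hcomm hinv, hw 0, hw 1, hw 2]
    rfl
  have h2 := congrArg (fun z : N => (z : G)) h1
  simpa only [MulAut.conjNormal_apply] using h2

/-- `e`-th powers of elements which centralize `N`. -/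
theorem cent_pow [Finite G] (N : Subgroup G) [N.Normal] (hN : IsCyclic N) (hco : (Nat.card N).Coprime N.index)
    {x y : G} (hx : ∀ n ∈ N, x * n * x⁻¹ = n) (hy : ∀ n ∈ N, y * n * y⁻¹ = n) {e : ℕ} (he : N.index ∣ e) :
    (x * y) ^ e = x ^ e * y ^ e := by
  classical
  obtain ⟨K, hK⟩ := exists_right_complement'_of_coprime hco
  have hNc : ∀ x ∈ N, ∀ y ∈ N, x * y = y * x := fun x hx y hy =>
    congrArg (fun z : N => (z : G)) (cyc_mul_comm hN ⟨x, hx⟩ ⟨y, hy⟩)
  have hcard : Nat.card K = N.index := by rw [← hK.symm.index_eq_card]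
  have hKe : ∀ h ∈ K, h ^ e = 1 := by
    intro h hh
    obtain ⟨q, rfl⟩ := he
    rw [pow_mul, ← hcard]
    have h6 : (⟨h, hh⟩ : K) ^ Nat.card K = 1 := pow_card_eq_one'
    have h7 : h ^ Nat.card K = 1 := congrArg (fun z : K => (z : G)) h6
    rw [h7, one_pow]
  have hex : ∀ x : G, (∀ n ∈ N, x * n * x⁻¹ = n) → ∃ n ∈ N, ∃ h ∈ K, x = n * h ∧ ∀ m ∈ N, h * m = m * h := by
    intro x hx
    obtain ⟨⟨n, h⟩, hh⟩ := hK.2 x
    have hh' : (n : G) * h = x := hh
    refine ⟨n, n.2, h, h.2, hh'.symm, fun m hm => ?_⟩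
    have h1 := hx m hm
    rw [← hh', mul_inv_rev] at h1
    have h2 : (n : G) * (h * m * (h : G)⁻¹) * (n : G)⁻¹ = m := by
      simpa only [mul_assoc] using h1
    have h3 : (h : G) * m * (h : G)⁻¹ = (n : G)⁻¹ * m * n := by
      have h5 := congrArg (fun z => (n : G)⁻¹ * z * n) h2
      rw [← h5]
      group
    have h4 : (n : G)⁻¹ * m * n = m := by
      rw [mul_assoc, hNc m hm n n.2]
      group
    rw [h4] at h3
    exact mul_inv_eq_iff_eq_mul.1 h3
  obtain ⟨n, hn, h, hh, rfl, hc⟩ := hex x hx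
  obtain ⟨n', hn', h', hh', rfl, hc'⟩ := hex y hy
  have e1 : n * h * (n' * h') = (n * n') * (h * h') := by
    rw [mul_assoc n h, ← mul_assoc h n' h', hc n' hn']
    group
  have c1 : Commute (n * n') (h * h') := by
    have h1 := hc _ (mul_mem hn hn')
    have h2 := hc' _ (mul_mem hn hn')
    change n * n' * (h * h') = h * h' * (n * n')
    rw [mul_assoc h h', h2, ← mul_assoc h, h1]
    group
  have c2 : Commute n h := (hc n hn).symm
  have c3 : Commute n' h' := (hc' n' hn').symm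
  have c4 : Commute n n' := hNc n hn n' hn'
  rw [e1, c1.mul_pow, c2.mul_pow, c3.mul_pow, hKe _ (mul_mem hh hh'), hKe _ hh, hKe _ hh', c4.mul_pow]
  group

end Cent

/-! ### The strands next to a strip of width 6 -/

/-- `s` -/
def sw : List (Fin 3) := [0, 1]

/-- `s⁻¹` -/
def si : List (Fin 3) := [1, 0]

/-- the strand on the right of the left wide strip -/
def DL : List (Fin 3) :=
  si ++ (si ++ (si ++ (Lw 1 ++ (sw ++ (sw ++ (sw ++ (Lw 2 ++ (si ++ (si ++ (si ++ (Lw 3 ++ (sw ++ (sw ++ (sw ++ (Lw 4 ++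
  (sw ++ (sw ++ (Lw 5 ++ (si ++ (si ++ (Lw 6 ++ (sw ++ (sw ++ (Lw 7 ++ (si ++ (si ++ Lw 8))))))))))))))))))))))))))

/-- the strand on the left of the right wide strip -/
def DR : List (Fin 3) :=
  si ++ (si ++ (Lw 1 ++ (sw ++ (sw ++ (Lw 2 ++ (si ++ (si ++ (Lw 3 ++ (sw ++ (sw ++ (Lw 4 ++
  (sw ++ (sw ++ (sw ++ (Lw 5 ++ (si ++ (si ++ (si ++ (Lw 6 ++ (sw ++ (sw ++ (sw ++ (Lw 7 ++ (si ++ (si ++ (si ++
  Lw 8))))))))))))))))))))))))))

/-- `s ^ 2` -/
def s2 : List (Fin 3) := sw ++ sw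

/-- `al s⁻² al⁻¹` -/
def as2 : List (Fin 3) := [0, 2] ++ (si ++ (si ++ [2, 0]))

/-- `al s² al⁻¹` -/
def as2' : List (Fin 3) := [0, 2] ++ (sw ++ (sw ++ [2, 0]))

/-- `s⁻²` -/
def si2 : List (Fin 3) := si ++ si

theorem same_L : SameF DL (prW Lw 1 8 ++ (as2' ++ si2)) ∧ EvenF DL ∧ EvenF (prW Lw 1 8) ∧ EvenF as2' ∧ EvenF si2 := by
  decide +kernel

theorem same_R : SameF DR (prW Lw 1 8 ++ (s2 ++ as2)) ∧ EvenF DR ∧ EvenF s2 ∧ EvenF as2 := by
  decide +kernel

theorem even_append {u v : List (Fin 3)} (hu : EvenF u) (hv : EvenF v) : EvenF (u ++ v) := by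
  intro l
  have : ∀ u : List (Fin 3), par (u ++ v) l = xor (par u l) (par v l) := by
    intro u
    induction u with
    | nil => simp [par]
    | cons x u ih =>
      rw [List.cons_append, par, par, ih]
      split_ifs <;> simp
  rw [this, hu l, hv l]
  rfl

section Grp

variable {G : Type*} [Group G]

/-- The left strand. -/
def gL (s : G) (f : ℤ → G) : G :=
  s ^ (-3 : ℤ) * f 1 * (s ^ (3 : ℤ) * f 2) * (s ^ (-3 : ℤ) * f 3) * (s ^ (3 : ℤ) * f 4) * (s ^ (2 : ℤ) * f 5) *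
    (s ^ (-2 : ℤ) * f 6) * (s ^ (2 : ℤ) * f 7) * (s ^ (-2 : ℤ) * f 8)

/-- The right strand. -/
def gR (s : G) (f : ℤ → G) : G :=
  s ^ (-2 : ℤ) * f 1 * (s ^ (2 : ℤ) * f 2) * (s ^ (-2 : ℤ) * f 3) * (s ^ (2 : ℤ) * f 4) * (s ^ (3 : ℤ) * f 5) *
    (s ^ (-3 : ℤ) * f 6) * (s ^ (3 : ℤ) * f 7) * (s ^ (-3 : ℤ) * f 8)

theorem z3 (s : G) : s ^ (3 : ℤ) = s * (s * s) := by
  rw [show (3 : ℤ) = ((3 : ℕ) : ℤ) by rfl, zpow_natCast, pow_succ, pow_two, mul_assoc]

theorem z2 (s : G) : s ^ (2 : ℤ) = s * s := by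
  rw [show (2 : ℤ) = ((2 : ℕ) : ℤ) by rfl, zpow_natCast, pow_two]

theorem zm3 (s : G) : s ^ (-3 : ℤ) = s⁻¹ * (s⁻¹ * s⁻¹) := by
  rw [zpow_neg, ← inv_zpow, z3]

theorem zm2 (s : G) : s ^ (-2 : ℤ) = s⁻¹ * s⁻¹ := by
  rw [zpow_neg, ← inv_zpow, z2]

/-- THE DRIFT. -/
theorem drift [Finite G] (N : Subgroup G) [N.Normal] (hN : IsCyclic N) (hco : (Nat.card N).Coprime N.index)
    {a b t : G} (ha : a * a = 1) (hb : b * b = 1) (ht : t * t = 1) {e : ℕ} (he : N.index ∣ e) :
    gL (a * b) (LG a b t) ^ e = pr (LG a b t) 1 (8 * e) * ((a * t) * (a * b) ^ (2 * e) * (a * t)⁻¹ * ((a * b) ^ (2 * e))⁻¹) ∧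
    gR (a * b) (LG a b t) ^ e = pr (LG a b t) 1 (8 * e) * ((a * b) ^ (2 * e) * (a * t) * ((a * b) ^ (2 * e))⁻¹ * (a * t)⁻¹) := by
  set g : Fin 3 → G := ![a, b, t] with hg
  have hgl : ∀ l, g l * g l = 1 := by
    intro l
    fin_cases l
    · exact ha
    · exact hb
    · exact ht
  have ia : a⁻¹ = a := inv_eq_of_mul_eq_one_left ha
  have ib : b⁻¹ = b := inv_eq_of_mul_eq_one_left hb
  have it : t⁻¹ = t := inv_eq_of_mul_eq_one_left ht
  have key : ∀ u v : List (Fin 3), SameF u v → EvenF u → EvenF v → ((u.map g).prod) ^ e = ((v.map g).prod) ^ e :=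
    fun u v h1 h2 h3 => word_pow N hN hco g hgl u v h1 h2 h3 he
  have cen : ∀ u : List (Fin 3), EvenF u → ∀ n ∈ N, (u.map g).prod * n * ((u.map g).prod)⁻¹ = n :=
    fun u hu n hn => even_cent hN g hgl u hu hn
  have app : ∀ u v : List (Fin 3), ((u ++ v).map g).prod = (u.map g).prod * (v.map g).prod := fun u v => by
    rw [List.map_append, List.prod_append]
  have pm : ∀ u v : List (Fin 3), EvenF u → EvenF v → (((u ++ v).map g).prod) ^ e =
      ((u.map g).prod) ^ e * ((v.map g).prod) ^ e := by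
    intro u v hu hv
    rw [app]
    exact cent_pow N hN hco (cen u hu) (cen v hv) he
  have hsw : (sw.map g).prod = a * b := by simp [sw, hg]
  have hsi : (si.map g).prod = (a * b)⁻¹ := by simp [si, hg, mul_inv_rev, ia, ib]
  have hat : (([0, 2] : List (Fin 3)).map g).prod = a * t := by simp [hg]
  have hta : (([2, 0] : List (Fin 3)).map g).prod = (a * t)⁻¹ := by simp [hg, mul_inv_rev, ia, it]
  have hL : ∀ m, ((Lw m).map g).prod = LG a b t m := by
    intro m
    unfold Lw LG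
    split_ifs <;> simp [hg]
  have wL : ∀ m n, ((prW Lw m n).map g).prod = pr (LG a b t) m n := fun m n => by
    rw [prW_prod]
    congr 1
    funext m
    exact hL m
  have pL : ((prW Lw 1 8).map g).prod ^ e = pr (LG a b t) 1 (8 * e) := by
    rw [wL]
    exact (pr_per (p := 8) (LG_add a b t) 1 e).symm
  set s := a * b with hs
  set al := a * t with hal
  obtain ⟨l1, l2, l3, l4, l5⟩ := same_L
  obtain ⟨r1, r2, r3, r4⟩ := same_R
  have eL : (DL.map g).prod = gL s (LG a b t) := by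
    unfold DL gL
    simp only [app, hsw, hsi, hL, z3, z2, zm3, zm2, mul_assoc]
  have eR : (DR.map g).prod = gR s (LG a b t) := by
    unfold DR gR
    simp only [app, hsw, hsi, hL, z3, z2, zm3, zm2, mul_assoc]
  have e1 : (s2.map g).prod ^ e = s ^ (2 * e) := by
    unfold s2
    rw [app, hsw, ← pow_two, ← pow_mul]
  have e2 : (si2.map g).prod ^ e = (s ^ (2 * e))⁻¹ := by
    unfold si2
    rw [app, hsi, ← pow_two, ← pow_mul, inv_pow]
  have e3 : (as2.map g).prod ^ e = al * (s ^ (2 * e))⁻¹ * al⁻¹ := by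
    unfold as2
    rw [app, app, app, hsi, hat, hta]
    have : al * (s⁻¹ * (s⁻¹ * al⁻¹)) = al * (s⁻¹ ^ 2) * al⁻¹ := by
      simp only [pow_two, mul_assoc]
    rw [this, conj_pow, ← pow_mul, inv_pow]
  have e4 : (as2'.map g).prod ^ e = al * s ^ (2 * e) * al⁻¹ := by
    unfold as2'
    rw [app, app, app, hsw, hat, hta]
    have : al * (s * (s * al⁻¹)) = al * (s ^ 2) * al⁻¹ := by
      simp only [pow_two, mul_assoc]
    rw [this, conj_pow, ← pow_mul]
  constructor
  · rw [← eL, key _ _ l1 l2 (even_append l3 (even_append l4 l5)), pm _ _ l3 (even_append l4 l5), pm _ _ l4 l5, pL, e2, e4]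
  · rw [← eR, key _ _ r1 r2 (even_append l3 (even_append r3 r4)), pm _ _ l3 (even_append r3 r4), pm _ _ r3 r4, pL, e1, e3]
    simp only [mul_assoc]

end Grp

end Pool.Agent.Lib.MP_688fd0_co.SQ5.H48
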