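import Pool.Agent.Lib.MP_688fd0_co.SQ5.H20.Close
import Pool.Agent.Lib.MP_688fd0_co.SQ5.H76.Word

/-!
MP_688fd0_co, type C2, FAR-3, design B' (finding 4349), row LAM (helper48): the rows of consecutive runs coincide.

`al = a t`, `s = a b`, `s⁻¹ al = b t`. `Lt m` = the letter of the wall word at phase `m`, `W m` = the product of the letters
`0 .. m - 1`, `v = W 3`. `X z mu = v ^ z * W (mu - 3 z)` = the row of the run `z` at the absolute level `mu`. `Eqv H x y`: the
right cosets of `x`, `y` agree.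
-/

set_option autoImplicit false

namespace Pool.Agent.Lib.MP_688fd0_co.SQ5.H48

open Pool.Agent.Lib.MP_688fd0_co.SQ5.H20 (B8)
open Pool.Agent.Lib.MP_688fd0_co.SQ5.H76 (col)

variable {G : Type*} [Group G]

/-- The letter of phase `m`. -/
def Lt (al s : G) (m : ℤ) : G := if B8 m then al else s⁻¹ * al

/-- The wall word. -/
structure LamW (al s zc : G) (W : ℤ → G) (k : ℕ) : Prop where
  z : W 0 = 1
  st : ∀ m, W (m + 1) = W m * Lt al s m
  per : ∀ m, W (m + 8 * k) = zc * W m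
  ca : Commute zc al
  cs : Commute zc s

/-- The row of the run `z` at the absolute level `mu`. -/
def X (al s : G) (W : ℤ → G) (z : ℕ) (mu : ℤ) : G := (al * al * (s⁻¹ * al)) ^ z * W (mu - 3 * z)

/-- Same right coset. -/
def Eqv (H : Subgroup G) (x y : G) : Prop := x * y⁻¹ ∈ H

/-- The difference of the rows. -/
def dd (x : ℤ) : ℤ := (1 + col (x - 3) - col x) / 2

namespace Eqv

variable {H : Subgroup G} {x y z : G}

theorem refl (H : Subgroup G) (x : G) : Eqv H x x := by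
  unfold Eqv
  rw [mul_inv_cancel]
  exact H.one_mem

theorem of_eq (h : x = y) : Eqv H x y := h ▸ Eqv.refl H x

theorem symm (h : Eqv H x y) : Eqv H y x := by
  unfold Eqv at *
  have := H.inv_mem h
  rwa [mul_inv_rev, inv_inv] at this

theorem trans (h : Eqv H x y) (h' : Eqv H y z) : Eqv H x z := by
  unfold Eqv at *
  have := H.mul_mem h h'
  rwa [mul_assoc, inv_mul_cancel_left] at this

theorem mul (h : Eqv H x y) (w : G) : Eqv H (x * w) (y * w) := by
  unfold Eqv at *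
  rwa [mul_inv_rev, mul_assoc, mul_inv_cancel_left]

theorem cancel {w : G} (h : Eqv H (x * w) (y * w)) : Eqv H x y := by
  have := h.mul w⁻¹
  rwa [mul_inv_cancel_right, mul_inv_cancel_right] at this

theorem cong {x' y' : G} (h : Eqv H x y) (hx : x' = x) (hy : y' = y) : Eqv H x' y' := by
  rw [hx, hy]; exact h

end Eqv

theorem mod8_cases (x : ℤ) : x % 8 = 0 ∨ x % 8 = 1 ∨ x % 8 = 2 ∨ x % 8 = 3 ∨ x % 8 = 4 ∨ x % 8 = 5 ∨ x % 8 = 6 ∨
    x % 8 = 7 := by omega

theorem B8_eq (m : ℤ) : B8 m = decide (m % 8 = 0 ∨ m % 8 = 1 ∨ m % 8 = 3 ∨ m % 8 = 6) := by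
  unfold B8
  simp only [Bool.decide_or, Bool.or_assoc]

theorem dd_val (x : ℤ) : dd x = if x % 8 = 5 ∨ x % 8 = 6 ∨ x % 8 = 7 ∨ x % 8 = 0 then 1 else 0 := by
  unfold dd col
  rcases mod8_cases x with h | h | h | h | h | h | h | h
  · have h' : (x - 3) % 8 = 5 := by omega
    simp [h, h']
  · have h' : (x - 3) % 8 = 6 := by omega
    simp [h, h']
  · have h' : (x - 3) % 8 = 7 := by omega
    simp [h, h']
  · have h' : (x - 3) % 8 = 0 := by omega
    simp [h, h']
  · have h' : (x - 3) % 8 = 1 := by omega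
    simp [h, h']
  · have h' : (x - 3) % 8 = 2 := by omega
    simp [h, h']
  · have h' : (x - 3) % 8 = 3 := by omega
    simp [h, h']
  · have h' : (x - 3) % 8 = 4 := by omega
    simp [h, h']

/-- The letters of consecutive runs. -/
theorem Lt_dd (al s : G) (x : ℤ) : Lt al s x = s ^ (dd x - dd (x + 1)) * Lt al s (x - 3) := by
  rw [dd_val, dd_val]
  unfold Lt
  rw [B8_eq, B8_eq]
  rcases mod8_cases x with h | h | h | h | h | h | h | h
  · have h' : (x - 3) % 8 = 5 := by omega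
    have h2 : (x + 1) % 8 = 1 := by omega
    simp [h, h', h2]
  · have h' : (x - 3) % 8 = 6 := by omega
    have h2 : (x + 1) % 8 = 2 := by omega
    simp [h, h', h2]
  · have h' : (x - 3) % 8 = 7 := by omega
    have h2 : (x + 1) % 8 = 3 := by omega
    simp [h, h', h2]
  · have h' : (x - 3) % 8 = 0 := by omega
    have h2 : (x + 1) % 8 = 4 := by omega
    simp [h, h', h2]
  · have h' : (x - 3) % 8 = 1 := by omega
    have h2 : (x + 1) % 8 = 5 := by omega
    simp [h, h', h2]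
  · have h' : (x - 3) % 8 = 2 := by omega
    have h2 : (x + 1) % 8 = 6 := by omega
    simp [h, h', h2]
  · have h' : (x - 3) % 8 = 3 := by omega
    have h2 : (x + 1) % 8 = 7 := by omega
    simp [h, h', h2]
  · have h' : (x - 3) % 8 = 4 := by omega
    have h2 : (x + 1) % 8 = 0 := by omega
    simp [h, h', h2]

section Row

variable {al s zc : G} {W : ℤ → G} {k : ℕ} (hW : LamW al s zc W k) (H : Subgroup G)

include hW in
theorem X_succ (z : ℕ) (mu : ℤ) : X al s W z (mu + 1) = X al s W z mu * Lt al s (mu - 3 * z) := by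
  unfold X
  have e : mu + 1 - 3 * (z : ℤ) = mu - 3 * z + 1 := by ring
  rw [e, hW.st]
  exact (mul_assoc _ _ _).symm

theorem Lt_mem (m : ℤ) : Lt al s m ∈ Subgroup.closure {al, s} := by
  have h1 : al ∈ Subgroup.closure {al, s} := Subgroup.subset_closure (by simp)
  have h2 : s ∈ Subgroup.closure {al, s} := Subgroup.subset_closure (by simp)
  unfold Lt
  split_ifs
  · exact h1
  · exact mul_mem (inv_mem h2) h1

include hW in
theorem W_mem (m : ℤ) : W m ∈ Subgroup.closure {al, s} := by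
  induction m using Int.induction_on with
  | zero => rw [hW.z]; exact one_mem _
  | succ i ih => rw [hW.st]; exact mul_mem ih (Lt_mem _)
  | pred i ih =>
    have h := hW.st (-(i : ℤ) - 1)
    rw [sub_add_cancel] at h
    rw [h] at ih
    have := mul_mem ih (inv_mem (Lt_mem (al := al) (s := s) (-(i : ℤ) - 1)))
    rwa [mul_inv_cancel_right] at this

include hW in
theorem X_mem (z : ℕ) (mu : ℤ) : X al s W z mu ∈ Subgroup.closure {al, s} := by
  have h1 : al ∈ Subgroup.closure {al, s} := Subgroup.subset_closure (by simp)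
  have h2 : s ∈ Subgroup.closure {al, s} := Subgroup.subset_closure (by simp)
  exact mul_mem (pow_mem (mul_mem (mul_mem h1 h1) (mul_mem (inv_mem h2) h1)) z) (W_mem hW _)

include hW in
/-- The event. -/
theorem X_event (z : ℕ) : X al s W (z + 1) (3 * (z + 1)) = X al s W z (3 * (z + 1)) := by
  unfold X
  have e1 : (3 * ((z : ℤ) + 1)) - 3 * ((z + 1 : ℕ) : ℤ) = 0 := by push_cast; ring
  have e2 : (3 * ((z : ℤ) + 1)) - 3 * (z : ℤ) = 0 + 1 + 1 + 1 := by ring
  rw [e1, e2, hW.z, hW.st, hW.st, hW.st, hW.z]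
  have b0 : Lt al s 0 = al := by simp [Lt, B8_eq]
  have b1 : Lt al s (0 + 1) = al := by simp [Lt, B8_eq]
  have b2 : Lt al s (0 + 1 + 1) = s⁻¹ * al := by simp [Lt, B8_eq]
  rw [b0, b1, b2, pow_succ, mul_one, one_mul]

/-- The hypotheses of row LAM: `s ^ (2 k)` passes through, the even columns, one odd column at the even phases. -/
structure LamH (al s : G) (W : ℤ → G) (k w : ℕ) (n1 n2 : ℤ) (H : Subgroup G) : Prop where
  k0 : 0 < k
  kw : k ≤ w
  o1 : n1 % 2 = 1
  o2 : n2 % 2 = 1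
  col : ∀ x ∈ Subgroup.closure {al, s}, Eqv H (x * s ^ (2 * k : ℤ) * al) (x * al * s ^ (2 * k : ℤ))
  ev : ∀ z : ℕ, z ≤ 3 → ∀ mu : ℤ, ∀ i : ℕ, i < w →
    Eqv H (X al s W z mu * s ^ (2 * i : ℤ) * Lt al s (mu - 3 * z)) (X al s W z (mu + 1) * s ^ (2 * i : ℤ))
  od1 : ∀ z : ℕ, z ≤ 3 → ∀ mu : ℤ, ((mu - 3 * z + 1) % 8 = 2 ∨ (mu - 3 * z + 1) % 8 = 4) →
    Eqv H (X al s W z mu * s ^ n1 * Lt al s (mu - 3 * z)) (X al s W z (mu + 1) * s ^ n1)
  od2 : ∀ z : ℕ, z ≤ 3 → ∀ mu : ℤ, ((mu - 3 * z + 1) % 8 = 6 ∨ (mu - 3 * z + 1) % 8 = 0) →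
    Eqv H (X al s W z mu * s ^ n2 * Lt al s (mu - 3 * z)) (X al s W z (mu + 1) * s ^ n2)

variable {H} {w : ℕ} {n1 n2 : ℤ} (h : LamH al s W k w n1 n2 H)

include h in
/-- `s ^ (2 k)` commutes with the letters. -/
theorem col_Lt {x : G} (hx : x ∈ Subgroup.closure {al, s}) (m : ℤ) :
    Eqv H (x * s ^ (2 * k : ℤ) * Lt al s m) (x * Lt al s m * s ^ (2 * k : ℤ)) := by
  have h2 : s ∈ Subgroup.closure {al, s} := Subgroup.subset_closure (by simp)
  unfold Lt
  split_ifs
  · exact h.col x hx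
  · refine (h.col (x * s⁻¹) (mul_mem hx (inv_mem h2))).cong ?_ ?_
    · have : s⁻¹ * s ^ (2 * k : ℤ) = s ^ (2 * k : ℤ) * s⁻¹ := by
        rw [← zpow_neg_one, ← zpow_add, ← zpow_add, add_comm]
      rw [mul_assoc x s⁻¹, this]
      group
    · group

include h in
theorem col_Lt' (t m : ℤ) : ∀ {x : G}, x ∈ Subgroup.closure {al, s} →
    Eqv H (x * s ^ (2 * k * t : ℤ) * Lt al s m) (x * Lt al s m * s ^ (2 * k * t : ℤ)) := by
  have h2 : s ∈ Subgroup.closure {al, s} := Subgroup.subset_closure (by simp)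
  induction t using Int.induction_on with
  | zero => intro x _; exact Eqv.of_eq (by simp)
  | succ i ih =>
    intro x hx
    have e : (2 * k * ((i : ℤ) + 1) : ℤ) = 2 * k * i + 2 * k := by ring
    rw [e, zpow_add]
    have h3 := col_Lt h (mul_mem hx (zpow_mem h2 (2 * k * (i : ℤ)))) m
    have h4 := (ih hx).mul (s ^ (2 * k : ℤ))
    refine (h3.trans h4).cong ?_ ?_ <;> group
  | pred i ih =>
    intro x hx
    have e : (2 * k * (-(i : ℤ)) : ℤ) = 2 * k * (-(i : ℤ) - 1) + 2 * k := by ring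
    have h3 := col_Lt h (mul_mem hx (zpow_mem h2 (2 * k * (-(i : ℤ) - 1)))) m
    have h4 := ih hx
    rw [e, zpow_add] at h4
    have h5 : Eqv H (x * s ^ (2 * k * (-(i : ℤ) - 1) : ℤ) * Lt al s m * s ^ (2 * k : ℤ))
        (x * Lt al s m * s ^ (2 * k * (-(i : ℤ) - 1) : ℤ) * s ^ (2 * k : ℤ)) := by
      refine (h3.symm.trans (h4.cong ?_ rfl)).cong rfl ?_
      · group
      · group
    exact h5.cancel

include hW h in
/-- (M) all even columns. -/
theorem LamH.even {z : ℕ} (hz : z ≤ 3) (mu : ℤ) {n : ℤ} (hn : Even n) :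
    Eqv H (X al s W z mu * s ^ n * Lt al s (mu - 3 * z)) (X al s W z (mu + 1) * s ^ n) := by
  have h2 : s ∈ Subgroup.closure {al, s} := Subgroup.subset_closure (by simp)
  obtain ⟨q, rfl⟩ := hn
  have hk := h.k0
  have h0 := Int.emod_nonneg q (show (k : ℤ) ≠ 0 by omega)
  have h1 := Int.emod_lt_of_pos q (show (0 : ℤ) < k by omega)
  have e0 := Int.emod_add_mul_ediv q k
  have hkw := h.kw
  have e1 := h.ev z hz mu (q % k).toNat (by omega)
  have e2 : (((q % k).toNat : ℕ) : ℤ) = q % k := Int.toNat_of_nonneg h0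
  rw [e2] at e1
  have e3 : q + q = 2 * (q % k) + 2 * k * (q / k) := by
    have : 2 * (k : ℤ) * (q / k) = 2 * (k * (q / k)) := by ring
    rw [this]
    omega
  have e4 := col_Lt' h (q / k) (mu - 3 * z) (mul_mem (X_mem hW z mu) (zpow_mem h2 (2 * (q % k))))
  have e5 := e1.mul (s ^ (2 * k * (q / k) : ℤ))
  rw [e3, zpow_add]
  refine (e4.trans e5).cong ?_ ?_ <;> group

include h in
/-- One odd column at the even phases. -/
theorem LamH.odd {z : ℕ} (hz : z ≤ 3) (mu : ℤ) (hp : (mu - 3 * z + 1) % 2 = 0) :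
    ∃ n : ℤ, n % 2 = 1 ∧ Eqv H (X al s W z mu * s ^ n * Lt al s (mu - 3 * z)) (X al s W z (mu + 1) * s ^ n) := by
  rcases mod8_cases (mu - 3 * z + 1) with h1 | h1 | h1 | h1 | h1 | h1 | h1 | h1
  · exact ⟨n2, h.o2, h.od2 z hz mu (Or.inr h1)⟩
  · omega
  · exact ⟨n1, h.o1, h.od1 z hz mu (Or.inl h1)⟩
  · omega
  · exact ⟨n1, h.o1, h.od1 z hz mu (Or.inr h1)⟩
  · omega
  · exact ⟨n2, h.o2, h.od2 z hz mu (Or.inl h1)⟩
  · omega

include hW h in
/-- A common column of the runs `z`, `z + 1`. -/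
theorem LamH.common {z : ℕ} (hz : z ≤ 2) (mu : ℤ) : ∃ n : ℤ,
    Eqv H (X al s W (z + 1) mu * s ^ n * Lt al s (mu - 3 * z - 3)) (X al s W (z + 1) (mu + 1) * s ^ n) ∧
    Eqv H (X al s W z mu * s ^ (dd (mu - 3 * z + 1) + n) * Lt al s (mu - 3 * z))
      (X al s W z (mu + 1) * s ^ (dd (mu - 3 * z + 1) + n)) := by
  have ez : mu - 3 * ((z + 1 : ℕ) : ℤ) = mu - 3 * z - 3 := by push_cast; ring
  have hev := @LamH.even _ _ al s zc W k hW H w n1 n2 h (z + 1) (by omega) mu
  rw [ez] at hev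
  by_cases hd : dd (mu - 3 * z + 1) = 0
  · refine ⟨0, hev (by simp), ?_⟩
    rw [hd]
    exact h.even hW (by omega) mu (by simp)
  · have hd1 : dd (mu - 3 * z + 1) = 1 := by
      rw [dd_val] at hd ⊢
      split_ifs at hd ⊢ with h1
      · rfl
      · exact absurd rfl hd
    rw [hd1]
    by_cases hp : (mu - 3 * z + 1) % 2 = 0
    · obtain ⟨n, hn, h1⟩ := h.odd (z := z) (by omega) mu hp
      refine ⟨n - 1, hev ?_, ?_⟩
      · rw [Int.even_iff]; omega
      · have e : 1 + (n - 1) = n := by ring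
        rw [e]
        exact h1
    · obtain ⟨n, hn, h1⟩ := h.odd (z := z + 1) (by omega) mu (by rw [ez]; omega)
      rw [ez] at h1
      refine ⟨n, h1, h.even hW (by omega) mu ?_⟩
      rw [Int.even_iff]; omega

include hW h in
/-- One level. -/
theorem LamH.step {z : ℕ} (hz : z ≤ 2) (mu : ℤ) :
    Eqv H (X al s W (z + 1) mu) (X al s W z mu * s ^ dd (mu - 3 * z)) ↔
    Eqv H (X al s W (z + 1) (mu + 1)) (X al s W z (mu + 1) * s ^ dd (mu - 3 * z + 1)) := by
  obtain ⟨n, h1, h2⟩ := h.common hW hz mu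
  have hL := Lt_dd al s (mu - 3 * z)
  -- the letter of the run `z` in the row
  have e : X al s W z mu * s ^ (dd (mu - 3 * z + 1) + n) * Lt al s (mu - 3 * z) =
      X al s W z mu * s ^ dd (mu - 3 * z) * s ^ n * Lt al s (mu - 3 * z - 3) := by
    rw [hL]
    have : s ^ (dd (mu - 3 * z + 1) + n) * s ^ (dd (mu - 3 * z) - dd (mu - 3 * z + 1)) = s ^ dd (mu - 3 * z) * s ^ n := by
      rw [← zpow_add, ← zpow_add]
      congr 1
      ring
    rw [mul_assoc (X al s W z mu) (s ^ (dd (mu - 3 * z + 1) + n)), ← mul_assoc (s ^ (dd (mu - 3 * z + 1) + n)), this]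
    group
  rw [e] at h2
  constructor
  · intro h3
    have h4 := (h3.mul (s ^ n)).mul (Lt al s (mu - 3 * z - 3))
    have h5 := (h1.symm.trans h4).trans h2
    refine Eqv.cancel (w := s ^ n) (h5.cong rfl ?_)
    rw [zpow_add, ← mul_assoc]
  · intro h3
    have h4 : Eqv H (X al s W (z + 1) (mu + 1) * s ^ n) (X al s W z (mu + 1) * s ^ (dd (mu - 3 * z + 1) + n)) :=
      (h3.mul (s ^ n)).cong rfl (by rw [zpow_add, ← mul_assoc])
    have h5 := (h1.trans h4).trans h2.symm
    exact h5.cancel.cancel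

include hW h in
/-- (R) ROWS COINCIDE. -/
theorem LamH.row {z : ℕ} (hz : z ≤ 2) (mu : ℤ) :
    Eqv H (X al s W (z + 1) mu) (X al s W z mu * s ^ dd (mu - 3 * z)) := by
  have base : Eqv H (X al s W (z + 1) (3 * (z + 1))) (X al s W z (3 * (z + 1)) * s ^ dd (3 * (z + 1) - 3 * z)) := by
    have e : (3 * ((z : ℤ) + 1)) - 3 * z = 3 := by ring
    have e1 : dd 3 = 0 := by rw [dd_val]; simp
    rw [e, e1, zpow_zero, mul_one, X_event hW]
    exact Eqv.refl _ _
  have up : ∀ i : ℕ, Eqv H (X al s W (z + 1) (3 * (z + 1) + i)) (X al s W z (3 * (z + 1) + i) *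
      s ^ dd (3 * (z + 1) + i - 3 * z)) := by
    intro i
    induction i with
    | zero => simpa using base
    | succ i ih =>
      have := (h.step hW hz (3 * (z + 1) + i)).1 ih
      have e1 : 3 * ((z : ℤ) + 1) + ((i + 1 : ℕ) : ℤ) = 3 * (z + 1) + i + 1 := by push_cast; ring
      have e2 : 3 * ((z : ℤ) + 1) + (i : ℤ) + 1 - 3 * z = 3 * (z + 1) + i - 3 * z + 1 := by ring
      rw [e1, e2]
      exact this
  have down : ∀ i : ℕ, Eqv H (X al s W (z + 1) (3 * (z + 1) - i)) (X al s W z (3 * (z + 1) - i) *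
      s ^ dd (3 * (z + 1) - i - 3 * z)) := by
    intro i
    induction i with
    | zero => simpa using base
    | succ i ih =>
      refine (h.step hW hz _).2 ?_
      have e1 : 3 * ((z : ℤ) + 1) - ((i + 1 : ℕ) : ℤ) + 1 = 3 * (z + 1) - i := by push_cast; ring
      have e2 : 3 * ((z : ℤ) + 1) - ((i + 1 : ℕ) : ℤ) - 3 * z + 1 = 3 * (z + 1) - i - 3 * z := by push_cast; ring
      rw [e1, e2]
      exact ih
  rcases le_total (3 * ((z : ℤ) + 1)) mu with h1 | h1
  · obtain ⟨i, hi⟩ := Int.eq_ofNat_of_zero_le (sub_nonneg.2 h1)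
    have := up i
    rw [← hi] at this
    simpa using this
  · obtain ⟨i, hi⟩ := Int.eq_ofNat_of_zero_le (sub_nonneg.2 h1)
    have := down i
    rw [← hi] at this
    simpa using this

end Row

end Pool.Agent.Lib.MP_688fd0_co.SQ5.H48
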