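import Pool.Agent.Lib.MP_688fd0_co.SQ5.H48.Drift1

/-!
MP_688fd0_co, type C2, FAR-3, design B' (finding 4349), row LAM (helper48): THE GROUP THEOREM.

`nn K` = the column of the wall `K` (`K = 0 .. w + 1`, in steps of `s`, `nn 2 = 0`), walls `0`, `w + 1` in odd columns, one of
them at distance 3 of its neighbour. `Run1`: the strand `κ` (`2 ≤ κ ≤ w + 1`) passes from the row `V W m` to the row
`V W (m + 1)` at the wall `κ - col (m + 1)`. Four consecutive runs: all commutators are in `H`.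
-/

set_option autoImplicit false

namespace Pool.Agent.Lib.MP_688fd0_co.SQ5.H48

open Pool.Agent.Lib.MP_688fd0_co.SQ5.H20
open Pool.Agent.Lib.MP_688fd0_co.SQ5.H76 (col)

/-- The columns of the walls. -/
structure Cols (nn : ℤ → ℤ) (w : ℤ) : Prop where
  mid : ∀ K, 1 ≤ K → K ≤ w → nn K = 2 * (K - 2)
  o1 : nn 0 % 2 = 1
  o2 : nn (w + 1) % 2 = 1
  side : nn 0 = -5 ∨ nn (w + 1) = 2 * w - 1

theorem col_val (x : ℤ) : (x % 8 = 0 ∧ col x = 0) ∨ (x % 8 = 1 ∧ col x = 1) ∨ (x % 8 = 2 ∧ col x = 2) ∨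
    (x % 8 = 3 ∧ col x = 1) ∨ (x % 8 = 4 ∧ col x = 2) ∨ (x % 8 = 5 ∧ col x = 1) ∨ (x % 8 = 6 ∧ col x = 0) ∨
    (x % 8 = 7 ∧ col x = 1) := by
  unfold col
  rcases mod8_cases x with h | h | h | h | h | h | h | h <;> simp [h]

theorem col_per (x : ℤ) : col (x + 8) = col x := by
  unfold col
  have : (x + 8) % 8 = x % 8 := by omega
  rw [this]

variable {G : Type*} [Group G]

/-- The crossings of one run. -/
def Run1 (al s : G) (W : ℤ → G) (nn : ℤ → ℤ) (w : ℤ) (H : Subgroup G) (V : G) : Prop :=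
  ∀ κ, 2 ≤ κ → κ ≤ w + 1 → ∀ m, Eqv H (V * W m * s ^ nn (κ - col (m + 1)) * Lt al s m)
    (V * W (m + 1) * s ^ nn (κ - col (m + 1)))

/-- The step of the strand `κ`. -/
def stw (al s : G) (nn : ℤ → ℤ) (κ : ℤ) (i : ℤ) : G := s ^ (nn (κ - col (i + 1)) - nn (κ - col i)) * Lt al s i

namespace Run1

variable {al s : G} {W : ℤ → G} {nn : ℤ → ℤ} {w : ℤ} {H : Subgroup G} {V : G} (h : Run1 al s W nn w H V)

include h

/-- Along a strand. -/
theorem walk {κ : ℤ} (h0 : 2 ≤ κ) (h1 : κ ≤ w + 1) (m : ℤ) (n : ℕ) :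
    Eqv H (V * W m * s ^ nn (κ - col m) * pr (stw al s nn κ) m n) (V * W (m + n) * s ^ nn (κ - col (m + n))) := by
  induction n with
  | zero => exact Eqv.of_eq (by simp [pr])
  | succ n ih =>
    have h2 := h κ h0 h1 (m + n)
    have h3 := ih.mul (stw al s nn κ (m + n))
    have e : m + ((n + 1 : ℕ) : ℤ) = m + n + 1 := by push_cast; ring
    rw [e]
    refine (h3.cong ?_ rfl).trans (h2.cong ?_ rfl)
    · rw [mul_assoc _ (pr (stw al s nn κ) m n)]
      rfl
    · unfold stw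
      rw [zpow_sub]
      have e1 : s ^ nn (κ - col (m + n)) * (s ^ nn (κ - col (m + n + 1)) * (s ^ nn (κ - col (m + n)))⁻¹ * Lt al s (m + n)) =
          s ^ nn (κ - col (m + n + 1)) * Lt al s (m + n) := by
        rw [← zpow_neg, ← mul_assoc, ← mul_assoc, ← zpow_add, ← zpow_add]
        congr 2
        ring
      rw [mul_assoc _ (s ^ nn (κ - col (m + n))), e1, mul_assoc _ (s ^ nn (κ - col (m + n + 1)))]

/-- The inner walls. -/
theorem inner {K : ℤ} (h0 : 2 ≤ K) (h1 : K + 1 ≤ w) (m : ℤ) :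
    Eqv H (V * W m * s ^ nn K * Lt al s m) (V * W (m + 1) * s ^ nn K) := by
  have hc : 0 ≤ col (m + 1) ∧ col (m + 1) ≤ 2 := ⟨H76.col_nonneg _, H76.col_le _⟩
  have h2 := h (K + col (m + 1)) (by omega) (by omega) m
  rwa [add_sub_cancel_right] at h2

/-- The left end. -/
theorem left (hw : 1 ≤ w) {m : ℤ} (hm : (m + 1) % 8 = 2 ∨ (m + 1) % 8 = 4) :
    Eqv H (V * W m * s ^ nn 0 * Lt al s m) (V * W (m + 1) * s ^ nn 0) := by
  have h2 := h 2 (by omega) (by omega) m
  have hc : col (m + 1) = 2 := by rcases col_val (m + 1) with h | h | h | h | h | h | h | h <;> omega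
  rwa [hc] at h2

/-- The right end. -/
theorem right (hw : 1 ≤ w) {m : ℤ} (hm : (m + 1) % 8 = 6 ∨ (m + 1) % 8 = 0) :
    Eqv H (V * W m * s ^ nn (w + 1) * Lt al s m) (V * W (m + 1) * s ^ nn (w + 1)) := by
  have h2 := h (w + 1) (by omega) (by omega) m
  have hc : col (m + 1) = 0 := by rcases col_val (m + 1) with h | h | h | h | h | h | h | h <;> omega
  rw [hc] at h2
  simpa using h2

end Run1

theorem stw_per {al s : G} {nn : ℤ → ℤ} {κ : ℤ} (m : ℤ) : stw al s nn κ (m + (8 : ℕ)) = stw al s nn κ m := by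
  unfold stw
  have e1 : m + ((8 : ℕ) : ℤ) + 1 = m + 1 + 8 := by push_cast; ring
  have e2 : Lt al s (m + ((8 : ℕ) : ℤ)) = Lt al s m := by
    unfold Lt
    have : B8 (m + ((8 : ℕ) : ℤ)) = B8 m := B8_add m
    rw [this]
  have e3 : col (m + ((8 : ℕ) : ℤ)) = col m := col_per m
  rw [e1, col_per, e2, e3]

theorem pr8 (f : ℤ → G) (m : ℤ) : pr f m 8 = f m * f (m + 1) * f (m + 2) * f (m + 3) * f (m + 4) * f (m + 5) * f (m + 6) *
    f (m + 7) := by
  simp [pr]

theorem stw_left {al s : G} {nn : ℤ → ℤ} {w : ℤ} (hc : Cols nn w) (hw : 2 ≤ w) (h : nn 0 = -5) :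
    pr (stw al s nn 2) 1 8 = gL s (Lt al s) := by
  have h1 := hc.mid 1 (by omega) (by omega)
  have h2 := hc.mid 2 (by omega) (by omega)
  rw [pr8]
  unfold stw gL
  norm_num [col, h, h1, h2]

theorem stw_right {al s : G} {nn : ℤ → ℤ} {w : ℤ} (hc : Cols nn w) (hw : 3 ≤ w) (h : nn (w + 1) = 2 * w - 1) :
    pr (stw al s nn (w + 1)) 1 8 = gR s (Lt al s) := by
  have h1 := hc.mid w (by omega) (by omega)
  have h2 := hc.mid (w - 1) (by omega) (by omega)
  have c : ∀ x : ℤ, col x = if x % 8 = 0 then 0 else if x % 8 = 2 then 2 else if x % 8 = 4 then 2 else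
    if x % 8 = 6 then 0 else 1 := fun _ => rfl
  have e1 : w + 1 - 1 = w := by ring
  have e2 : w + 1 - 2 = w - 1 := by ring
  have d1 : nn (w - 1) - nn w = -2 := by rw [h1, h2]; ring
  have d2 : nn w - nn (w - 1) = 2 := by rw [h1, h2]; ring
  have d3 : nn (w + 1) - nn w = 3 := by rw [h1, h]; ring
  have d4 : nn w - nn (w + 1) = -3 := by rw [h1, h]; ring
  rw [pr8]
  unfold stw gR
  norm_num [c, e1, e2, d1, d2, d3, d4]

section Main

open Subgroup

variable [Finite G] (N : Subgroup G) [N.Normal] (hN : IsCyclic N) (hco : (Nat.card N).Coprime N.index)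
  {a b t : G} (ha : a * a = 1) (hb : b * b = 1) (ht : t * t = 1) {e : ℕ} (he : N.index ∣ e)

omit [Finite G] in
theorem Lt_LG {a b t : G} (ha : a * a = 1) (hb : b * b = 1) : Lt (a * t) (a * b) = LG a b t := by
  funext m
  have ia : a⁻¹ = a := inv_eq_of_mul_eq_one_left ha
  have ib : b⁻¹ = b := inv_eq_of_mul_eq_one_left hb
  unfold Lt LG
  split_ifs
  · rfl
  · rw [mul_inv_rev, ia, ib, mul_assoc, ← mul_assoc a a t, ha, one_mul]

include hN hco ha hb ht he in
/-- ONE RUN: `s ^ (2 e)` passes through. -/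
theorem Run1.col {W : ℤ → G} {zc : G} (hW : LamW (a * t) (a * b) zc W e) {nn : ℤ → ℤ} {w : ℤ} (hc : Cols nn w)
    (hw : 3 ≤ w) {H : Subgroup G} {V : G} (hV : V ∈ closure {a * t, a * b}) (h : Run1 (a * t) (a * b) W nn w H V) (x : G) :
    Eqv H (x * (a * b) ^ (2 * e : ℤ) * (a * t)) (x * (a * t) * (a * b) ^ (2 * e : ℤ)) := by
  set al := a * t with hal
  set s := a * b with hs
  have hL : Lt al s = LG a b t := Lt_LG ha hb
  obtain ⟨dl, dr⟩ := drift N hN hco ha hb ht he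
  rw [← hs, ← hal, ← hL] at dl dr
  have zV : Commute zc V := by
    have : closure {al, s} ≤ centralizer {zc} := by
      rw [closure_le]
      rintro y (rfl | rfl)
      · exact mem_centralizer_singleton_iff.2 hW.ca.symm
      · exact mem_centralizer_singleton_iff.2 hW.cs.symm
    exact (mem_centralizer_singleton_iff.1 (this hV)).symm
  have zW : ∀ m, Commute zc (W m) := by
    intro m
    have : closure {al, s} ≤ centralizer {zc} := by
      rw [closure_le]
      rintro y (rfl | rfl)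
      · exact mem_centralizer_singleton_iff.2 hW.ca.symm
      · exact mem_centralizer_singleton_iff.2 hW.cs.symm
    exact (mem_centralizer_singleton_iff.1 (this (W_mem hW m))).symm
  -- `W` over one period
  have hWp : ∀ n : ℕ, W (1 + n) = W 1 * pr (Lt al s) 1 n := by
    intro n
    induction n with
    | zero => simp [pr]
    | succ n ih =>
      have e1 : (1 : ℤ) + ((n + 1 : ℕ) : ℤ) = 1 + n + 1 := by push_cast; ring
      rw [e1, hW.st, ih, mul_assoc]
      rfl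
  have hz : pr (Lt al s) 1 (8 * e) = zc := by
    have h1 := hWp (8 * e)
    have h2 := hW.per 1
    have e1 : (1 : ℤ) + ((8 * e : ℕ) : ℤ) = 1 + 8 * e := by push_cast; ring
    rw [e1, h2, (zW 1).eq] at h1
    exact (mul_left_cancel h1).symm
  rw [hz] at dl dr
  -- the element of the drift
  have key : ∀ κ, 2 ≤ κ → κ ≤ w + 1 → ∀ c' : G, Commute zc c' → pr (stw al s nn κ) 1 8 ^ e = zc * c' →
      ∃ Y : G, Y * c' * Y⁻¹ ∈ H := by
    intro κ h0 h1 c' hzc hc'
    refine ⟨V * W 1 * s ^ nn (κ - H76.col 1), ?_⟩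
    have h2 := h.walk h0 h1 1 (8 * e)
    rw [pr_per (p := 8) stw_per, hc'] at h2
    have e1 : (1 : ℤ) + ((8 * e : ℕ) : ℤ) = 1 + 8 * e := by push_cast; ring
    have e2 : H76.col (1 + 8 * (e : ℤ)) = H76.col 1 := by
      have : (1 + 8 * (e : ℤ)) % 8 = 1 % 8 := by omega
      unfold H76.col
      rw [this]
    rw [e1, e2, hW.per] at h2
    have z1 : Commute zc (V * W 1 * s ^ nn (κ - H76.col 1)) :=
      (zV.mul_right (zW 1)).mul_right (hW.cs.zpow_right _)
    have e3 : V * (zc * W 1) * s ^ nn (κ - H76.col 1) = V * W 1 * s ^ nn (κ - H76.col 1) * zc := by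
      rw [← z1.eq, ← mul_assoc V zc, ← zV.eq]
      simp only [mul_assoc]
    rw [e3, hzc.eq, ← mul_assoc] at h2
    exact h2.cancel
  have key2 : ∀ c' : G, c' ∈ N → (∃ Y : G, Y * c' * Y⁻¹ ∈ H) → ∀ y : G, y * c' * y⁻¹ ∈ H := by
    rintro c' hc' ⟨Y, hY⟩ y
    have h1 : Y * c' * Y⁻¹ ∈ N := Normal.conj_mem inferInstance _ hc' _
    have h2 := cyc_conj hN h1 (y * Y⁻¹)
    have h3 : y * Y⁻¹ * (Y * c' * Y⁻¹) * (y * Y⁻¹)⁻¹ = y * c' * y⁻¹ := by group
    rw [h3] at h2
    exact (zpowers_le.2 hY) h2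
  have ms : s ^ (2 * e) ∈ N := by
    obtain ⟨q, hq⟩ := he
    have : s ^ (2 * e) = (s ^ N.index) ^ (2 * q) := by rw [← pow_mul]; congr 1; rw [hq]; ring
    rw [this]
    exact N.pow_mem (N.pow_index_mem _) _
  have za : Commute zc (al * s ^ (2 * e) * al⁻¹ * (s ^ (2 * e))⁻¹) :=
    ((hW.ca.mul_right (hW.cs.pow_right _)).mul_right hW.ca.inv_right).mul_right (hW.cs.pow_right _).inv_right
  have zb : Commute zc (s ^ (2 * e) * al * (s ^ (2 * e))⁻¹ * al⁻¹) :=
    (((hW.cs.pow_right _).mul_right hW.ca).mul_right (hW.cs.pow_right _).inv_right).mul_right hW.ca.inv_right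
  have ma : al * s ^ (2 * e) * al⁻¹ * (s ^ (2 * e))⁻¹ ∈ N :=
    N.mul_mem (Normal.conj_mem inferInstance _ ms _) (N.inv_mem ms)
  have mb : s ^ (2 * e) * al * (s ^ (2 * e))⁻¹ * al⁻¹ ∈ N := by
    have : s ^ (2 * e) * al * (s ^ (2 * e))⁻¹ * al⁻¹ = s ^ (2 * e) * (al * (s ^ (2 * e))⁻¹ * al⁻¹) := by
      simp only [mul_assoc]
    rw [this]
    exact N.mul_mem ms (Normal.conj_mem inferInstance _ (N.inv_mem ms) _)
  have goal : x * (s ^ (2 * e) * al * (s ^ (2 * e))⁻¹ * al⁻¹) * x⁻¹ ∈ H := by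
    rcases hc.side with hs1 | hs1
    · have h1 := key 2 (by omega) (by omega) _ za (by rw [stw_left hc (by omega) hs1, dl])
      have h2 := H.inv_mem (key2 _ ma h1 x)
      have h3 : (x * (al * s ^ (2 * e) * al⁻¹ * (s ^ (2 * e))⁻¹) * x⁻¹)⁻¹ =
          x * (s ^ (2 * e) * al * (s ^ (2 * e))⁻¹ * al⁻¹) * x⁻¹ := by group
      rwa [h3] at h2
    · have h1 := key (w + 1) (by omega) (by omega) _ zb (by rw [stw_right hc hw hs1, dr])
      exact key2 _ mb h1 x
  have e5 : s ^ (2 * e : ℤ) = s ^ (2 * e) := by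
    rw [← zpow_natCast]
    congr 1
  unfold Eqv
  rw [e5]
  have e6 : x * s ^ (2 * e) * al * (x * al * s ^ (2 * e))⁻¹ = x * (s ^ (2 * e) * al * (s ^ (2 * e))⁻¹ * al⁻¹) * x⁻¹ := by
    group
  rw [e6]
  exact goal

include hN hco ha hb ht he in
/-- FOUR RUNS. -/
theorem lamH_of_runs {W : ℤ → G} {zc : G} (hW : LamW (a * t) (a * b) zc W e) {nn : ℤ → ℤ} {w : ℤ} (hc : Cols nn w)
    (e0 : 0 < e) (hw : (e : ℤ) + 2 ≤ w) {H : Subgroup G}
    (h : ∀ z : ℕ, z ≤ 3 → Run1 (a * t) (a * b) W nn w H ((a * t * (a * t) * ((a * b)⁻¹ * (a * t))) ^ z)) :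
    LamH (a * t) (a * b) W e (w - 2).toNat (nn 0) (nn (w + 1)) H := by
  have hw2 : (((w - 2).toNat : ℕ) : ℤ) = w - 2 := Int.toNat_of_nonneg (by omega)
  have hX : ∀ (z : ℕ) (mu : ℤ), X (a * t) (a * b) W z (mu + 1) =
      (a * t * (a * t) * ((a * b)⁻¹ * (a * t))) ^ z * W (mu - 3 * z + 1) := by
    intro z mu
    unfold X
    congr 2
    ring
  refine
    { k0 := e0
      kw := by omega
      o1 := hc.o1
      o2 := hc.o2
      col := fun x _ => (h 0 (by omega)).col N hN hco ha hb ht he hW hc (by omega) (by simp) x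
      ev := ?_
      od1 := ?_
      od2 := ?_ }
  · intro z hz mu i hi
    have h1 := (h z hz).inner (K := i + 2) (by omega) (by omega) (mu - 3 * z)
    have h2 := hc.mid (i + 2) (by omega) (by omega)
    rw [h2, add_sub_cancel_right] at h1
    rw [hX]
    exact h1
  · intro z hz mu hm
    have h1 := (h z hz).left (by omega) hm
    rw [hX]
    exact h1
  · intro z hz mu hm
    have h1 := (h z hz).right (by omega) hm
    rw [hX]
    exact h1

end Main

end Pool.Agent.Lib.MP_688fd0_co.SQ5.H48
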