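import Pool.Agent.Lib.MP_688fd0_co.SQ5.H48.Lam1

/-!
MP_688fd0_co, type C2, FAR-3, design B' (finding 4349), row LAM (helper48): all columns, all commutators.
-/

set_option autoImplicit false

namespace Pool.Agent.Lib.MP_688fd0_co.SQ5.H48

open Pool.Agent.Lib.MP_688fd0_co.SQ5.H20
open Pool.Agent.Lib.MP_688fd0_co.SQ5.H76 (col)

open scoped commutatorElement

variable {G : Type*} [Group G]

/-- The difference of the rows of the runs `0` and `z`. -/
def ez : ℕ → ℤ → ℤ
  | 0, _ => 0
  | z + 1, mu => ez z mu + dd (mu - 3 * z)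

theorem Lt_ez (al s : G) (z : ℕ) (mu : ℤ) : Lt al s mu = s ^ (ez z mu - ez z (mu + 1)) * Lt al s (mu - 3 * z) := by
  induction z with
  | zero => simp [ez]
  | succ z ih =>
    rw [ih, Lt_dd al s (mu - 3 * z), ← mul_assoc, ← zpow_add]
    have e1 : mu - 3 * (z : ℤ) - 3 = mu - 3 * ((z + 1 : ℕ) : ℤ) := by push_cast; ring
    have e2 : mu - 3 * (z : ℤ) + 1 = mu + 1 - 3 * z := by ring
    rw [e1, e2]
    congr 2
    simp only [ez]
    ring

theorem ez_odd (mu : ℤ) : ∃ z : ℕ, z ≤ 3 ∧ ez z mu % 2 = 1 := by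
  rcases mod8_cases mu with h | h | h | h | h | h | h | h
  · refine ⟨1, by omega, ?_⟩
    simp only [ez, dd_val]
    split_ifs <;> omega
  · refine ⟨2, by omega, ?_⟩
    simp only [ez, dd_val]
    split_ifs <;> omega
  · refine ⟨2, by omega, ?_⟩
    simp only [ez, dd_val]
    split_ifs <;> omega
  · refine ⟨2, by omega, ?_⟩
    simp only [ez, dd_val]
    split_ifs <;> omega
  · refine ⟨3, by omega, ?_⟩
    simp only [ez, dd_val]
    split_ifs <;> omega
  · refine ⟨1, by omega, ?_⟩
    simp only [ez, dd_val]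
    split_ifs <;> omega
  · refine ⟨1, by omega, ?_⟩
    simp only [ez, dd_val]
    split_ifs <;> omega
  · refine ⟨1, by omega, ?_⟩
    simp only [ez, dd_val]
    split_ifs <;> omega

section Row

variable {al s zc : G} {W : ℤ → G} {k : ℕ} (hW : LamW al s zc W k) {H : Subgroup G} {w : ℕ} {n1 n2 : ℤ}
  (h : LamH al s W k w n1 n2 H)

include hW h in
theorem LamH.rowz {z : ℕ} (hz : z ≤ 3) (mu : ℤ) : Eqv H (X al s W z mu) (X al s W 0 mu * s ^ ez z mu) := by
  induction z with
  | zero => exact Eqv.of_eq (by simp [ez])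
  | succ z ih =>
    have h1 := h.row hW (z := z) (by omega) mu
    have h2 := (ih (by omega)).mul (s ^ dd (mu - 3 * z))
    refine (h1.trans h2).cong rfl ?_
    rw [mul_assoc, ← zpow_add]
    rfl

include hW h in
/-- (c) all columns of the run `0`. -/
theorem LamH.all (mu n : ℤ) : Eqv H (X al s W 0 mu * s ^ n * Lt al s mu) (X al s W 0 (mu + 1) * s ^ n) := by
  -- even plus the displacement of the run `z`
  have key : ∀ z : ℕ, z ≤ 3 → ∀ n : ℤ, Even n → Eqv H (X al s W 0 mu * s ^ (n + ez z (mu + 1)) * Lt al s mu)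
      (X al s W 0 (mu + 1) * s ^ (n + ez z (mu + 1))) := by
    intro z hz n hn
    have h1 := h.even hW hz mu hn
    have h2 := ((h.rowz hW hz mu).mul (s ^ n)).mul (Lt al s (mu - 3 * z))
    have h3 := (h.rowz hW hz (mu + 1)).mul (s ^ n)
    refine ((h2.symm.trans h1).trans h3).cong ?_ ?_
    · rw [Lt_ez al s z mu]
      have e : s ^ (n + ez z (mu + 1)) * s ^ (ez z mu - ez z (mu + 1)) = s ^ ez z mu * s ^ n := by
        rw [← zpow_add, ← zpow_add]
        congr 1
        ring
      rw [mul_assoc, ← mul_assoc (s ^ (n + ez z (mu + 1))), e]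
      simp only [mul_assoc]
    · rw [mul_assoc, ← zpow_add, add_comm n]
  rcases Int.even_or_odd n with hn | hn
  · have := key 0 (by omega) n hn
    simpa [ez] using this
  · obtain ⟨z, hz, hz2⟩ := ez_odd (mu + 1)
    have := key z hz (n - ez z (mu + 1)) (by
      rw [Int.odd_iff] at hn
      rw [Int.even_iff]
      omega)
    rwa [sub_add_cancel] at this

/-- The site `(i, j)`. -/
def Sij (s : G) (W : ℤ → G) (p : ℤ × ℤ) : G := W (p.1 + p.2) * s ^ ((p.1 - p.2 - col (p.1 + p.2)) / 2)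

/-- `x` moves the sites by `v`. -/
def Mvs (H : Subgroup G) (s : G) (W : ℤ → G) (x : G) (v : ℤ × ℤ) : Prop := ∀ p, Eqv H (Sij s W p * x) (Sij s W (p + v))

theorem Mvs.mul {x y : G} {v v' : ℤ × ℤ} (hx : Mvs H s W x v) (hy : Mvs H s W y v') : Mvs H s W (x * y) (v + v') := by
  intro p
  have := ((hx p).mul y).trans (hy (p + v))
  rw [mul_assoc, add_assoc] at this
  exact this

theorem Mvs.inv {x : G} {v : ℤ × ℤ} (hx : Mvs H s W x v) : Mvs H s W x⁻¹ (-v) := by
  intro p
  have := hx (p + -v)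
  rw [neg_add_cancel_right] at this
  have h2 := (this.mul x⁻¹).symm
  rwa [mul_inv_cancel_right] at h2

include hW h in
theorem LamH.mv {x : G} (hx : x ∈ Subgroup.closure {al, s}) : ∃ v, Mvs H s W x v := by
  induction hx using Subgroup.closure_induction with
  | mem x hx =>
    rcases hx with rfl | rfl
    · refine ⟨(1, 0), ?_⟩
      rintro ⟨i, j⟩
      have h1 := h.all hW (i + j)
      have hX : ∀ mu, X x s W 0 mu = W mu := by intro mu; simp [X]
      rw [hX, hX] at h1
      unfold Sij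
      have e1 : ((i, j) + ((1, 0) : ℤ × ℤ)).1 + ((i, j) + ((1, 0) : ℤ × ℤ)).2 = i + j + 1 := by
        show i + 1 + (j + 0) = _; ring
      have e2 : ((i, j) + ((1, 0) : ℤ × ℤ)).1 - ((i, j) + ((1, 0) : ℤ × ℤ)).2 = i - j + 1 := by
        show i + 1 - (j + 0) = _; ring
      rw [e1, e2]
      show Eqv H (W (i + j) * s ^ ((i - j - H76.col (i + j)) / 2) * x) _
      have hp := H76.col_par (i + j)
      have hs := H76.col_succ (i + j)
      have hb : H76.bw (i + j) = B8 (i + j) := by
        rw [B8_eq]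
        rfl
      rw [hb] at hs
      cases hB : B8 (i + j)
      · rw [hB] at hs
        simp only [Bool.false_eq_true, if_false] at hs
        have h2 := h1 ((i - j - H76.col (i + j)) / 2 + 1)
        refine h2.cong ?_ ?_
        · unfold Lt
          rw [hB, zpow_add, zpow_one]
          simp only [Bool.false_eq_true, if_false]
          group
        · congr 2
          omega
      · rw [hB] at hs
        simp only [if_true] at hs
        have h2 := h1 ((i - j - H76.col (i + j)) / 2)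
        refine h2.cong ?_ ?_
        · unfold Lt
          rw [hB]
          simp only [if_true]
        · congr 2
          omega
    · refine ⟨(1, -1), ?_⟩
      rintro ⟨i, j⟩
      refine Eqv.of_eq ?_
      unfold Sij
      have e1 : ((i, j) + ((1, -1) : ℤ × ℤ)).1 + ((i, j) + ((1, -1) : ℤ × ℤ)).2 = i + j := by
        show i + 1 + (j + -1) = _; ring
      have e2 : ((i, j) + ((1, -1) : ℤ × ℤ)).1 - ((i, j) + ((1, -1) : ℤ × ℤ)).2 = i - j + 2 := by
        show i + 1 - (j + -1) = _; ring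
      rw [e1, e2]
      show W (i + j) * x ^ ((i - j - H76.col (i + j)) / 2) * x = _
      have e3 : (i - j + 2 - H76.col (i + j)) / 2 = (i - j - H76.col (i + j)) / 2 + 1 := by omega
      rw [e3, zpow_add, zpow_one, mul_assoc]
  | one => exact ⟨0, fun p => Eqv.of_eq (by simp)⟩
  | mul x y _ _ hx hy =>
    obtain ⟨v, hv⟩ := hx
    obtain ⟨v', hv'⟩ := hy
    exact ⟨v + v', hv.mul hv'⟩
  | inv x _ hx =>
    obtain ⟨v, hv⟩ := hx
    exact ⟨-v, hv.inv⟩

include hW h in
/-- (d) ALL COMMUTATORS. -/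
theorem LamH.comm {x y : G} (hx : x ∈ Subgroup.closure {al, s}) (hy : y ∈ Subgroup.closure {al, s}) : ⁅x, y⁆ ∈ H := by
  obtain ⟨v, hv⟩ := h.mv hW hx
  obtain ⟨v', hv'⟩ := h.mv hW hy
  have h1 : Mvs H s W ⁅x, y⁆ (v + v' + -v + -v') := by
    rw [commutatorElement_def]
    exact ((hv.mul hv').mul hv.inv).mul hv'.inv
  have h2 := h1 0
  have e1 : (0 : ℤ × ℤ) + (v + v' + -v + -v') = 0 := by abel
  have e2 : Sij s W (0 : ℤ × ℤ) = 1 := by
    unfold Sij
    have : H76.col ((0 : ℤ × ℤ).1 + (0 : ℤ × ℤ).2) = 0 := by simp [H76.col]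
    rw [this]
    simp [hW.z]
  rw [e1, e2] at h2
  unfold Eqv at h2
  simpa using h2

end Row

open Subgroup in
/-- ROW LAM, group theory: four consecutive runs generate all commutators. -/
theorem lam_group [Finite G] (N : Subgroup G) [N.Normal] (hN : IsCyclic N) (hco : (Nat.card N).Coprime N.index)
    {a b t : G} (ha : a * a = 1) (hb : b * b = 1) (ht : t * t = 1) {e : ℕ} (he : N.index ∣ e)
    {W : ℤ → G} {zc : G} (hW : LamW (a * t) (a * b) zc W e) {nn : ℤ → ℤ} {w : ℤ} (hc : Cols nn w)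
    (e0 : 0 < e) (hw : (e : ℤ) + 2 ≤ w) {H : Subgroup G}
    (h : ∀ z : ℕ, z ≤ 3 → Run1 (a * t) (a * b) W nn w H ((a * t * (a * t) * ((a * b)⁻¹ * (a * t))) ^ z))
    {x y : G} (hx : x ∈ closure {a * t, a * b}) (hy : y ∈ closure {a * t, a * b}) : ⁅x, y⁆ ∈ H :=
  (lamH_of_runs N hN hco ha hb ht he hW hc e0 hw h).comm hW hx hy

end Pool.Agent.Lib.MP_688fd0_co.SQ5.H48
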