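import Pool.Agent.Lib.MP_688fd0_co.SQ5.H48.LamS
import Pool.Agent.Lib.MP_688fd0_co.SQ5.H76.RunB

/-!
MP_688fd0_co, type C2, FAR-3, design B' (finding 4349), row LAM (helper48): FOUR RUNS ARE CONNECTED, in the layout (plane version
of `lamD_conn` for helper76's runs `H.bd z`).
-/

set_option autoImplicit false

namespace Pool.Agent.Lib.MP_688fd0_co.SQ5.H48

open Pool.Agent.Lib.MP_688fd0_co.OSF
open Pool.Agent.Lib.MP_688fd0_co.SQ5.H20
open Pool.Agent.Lib.MP_688fd0_co.SQ5.H76
open Pool.Agent.Lib.MP_688fd0_co.SQ5.H76.Bd (KK LL)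
open Subgroup
open scoped commutatorElement

universe u v

/-! ### Columns -/

/-- The column of the wall `r0 + K` in steps of `s`, from the wall `r0 + 2`. -/
noncomputable def cnn (hw : ℤ → ℕ) (r0 : ℤ) (K : ℤ) : ℤ := isum hw (r0 + 2) (r0 + K)

theorem cnn_succ (hw : ℤ → ℕ) (r0 K : ℤ) : cnn hw r0 (K + 1) = cnn hw r0 K + hw (r0 + K) := by
  unfold cnn
  rw [← add_assoc, isum_succ]

theorem cnn_two (hw : ℤ → ℕ) (r0 : ℤ) : cnn hw r0 2 = 0 := by
  unfold cnn
  rw [isum_self]

theorem cnn_cols {hw : ℤ → ℕ} {r0 w : ℤ} (hw3 : 3 ≤ w) (hm : ∀ K, r0 < K → K < r0 + w → hw K = 2) (h1 : hw r0 % 2 = 1)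
    (h2 : hw (r0 + w) % 2 = 1) (h3 : hw r0 = 3 ∨ hw (r0 + w) = 3) : Cols (cnn hw r0) w := by
  have mid : ∀ K, 1 ≤ K → K ≤ w → cnn hw r0 K = 2 * (K - 2) := by
    have one : cnn hw r0 1 = -2 := by
      have := cnn_succ hw r0 1
      rw [show (1 : ℤ) + 1 = 2 by norm_num, cnn_two, hm (r0 + 1) (by omega) (by omega)] at this
      push_cast at this
      linarith
    intro K h0 h1
    obtain ⟨i, rfl⟩ : ∃ i : ℕ, K = 1 + i := ⟨(K - 1).toNat, by omega⟩
    induction i with
    | zero => rw [Nat.cast_zero, add_zero, one]; ring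
    | succ i ih =>
      have := cnn_succ hw r0 (1 + i)
      have e1 : (1 : ℤ) + ((i + 1 : ℕ) : ℤ) = 1 + i + 1 := by push_cast; ring
      rw [e1, this, ih (by omega) (by push_cast at h1; omega), hm _ (by omega) (by push_cast at h1; omega)]
      push_cast
      ring
  have z0 : cnn hw r0 0 = -2 - hw r0 := by
    have := cnn_succ hw r0 0
    rw [zero_add, mid 1 le_rfl (by omega), add_zero] at this
    linarith
  have zw : cnn hw r0 (w + 1) = 2 * (w - 2) + hw (r0 + w) := by
    rw [cnn_succ, mid w (by omega) le_rfl]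
  refine ⟨mid, ?_, ?_, ?_⟩
  · rw [z0]; omega
  · rw [zw]; omega
  · rcases h3 with h3 | h3
    · left; rw [z0, h3]; norm_num
    · right; rw [zw, h3]; push_cast; ring

/-! ### The words of the strands -/

section word

variable {Q : Type*} [Group Q] {q : L3 → Q} (hq : ∀ i, q i * q i = 1)

theorem KL_pow (x y : Q) (n : ℕ) : y * (x⁻¹ * y) ^ n = (y * x⁻¹) ^ n * y := by
  induction n with
  | zero => simp
  | succ n ih =>
    rw [pow_succ, ← mul_assoc, ih, pow_succ]
    simp only [mul_assoc]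

include hq in
theorem step_word (b : Bool) {h : ℕ} (h1 : 1 ≤ h) : KK q b * ((LL q b)⁻¹ * KK q b) ^ (h - 1) =
    (q .a * q .b) ^ (if b = true then -(h : ℤ) else (h : ℤ)) * LL q b := by
  have hi : ∀ i, (q i)⁻¹ = q i := fun i => inv_eq_of_mul_eq_one_left (hq i)
  have c : ∀ x y : Q, x * q .t * (q .t * y) = x * y := by
    intro x y
    rw [← mul_assoc, mul_assoc x, hq, mul_one]
  have e3 : ∀ x y z : Q, y * y = 1 → x * y * (y * z) = x * z := by
    intro x y z h
    rw [← mul_assoc, mul_assoc x, h, mul_one]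
  rw [KL_pow]
  obtain ⟨n, rfl⟩ : ∃ n, h = n + 1 := ⟨h - 1, by omega⟩
  rw [Nat.add_sub_cancel]
  cases b
  · have e1 : KK q false * (LL q false)⁻¹ = q .a * q .b := by
      unfold KK LL ow wl
      simp only [Bool.false_eq_true, if_false, mul_inv_rev, hi]
      exact c _ _
    have e2 : KK q false = q .a * q .b * LL q false := by
      unfold KK LL ow wl
      simp only [Bool.false_eq_true, if_false]
      exact (e3 _ _ _ (hq .b)).symm
    rw [e1]
    nth_rw 1 [e2]
    simp only [Bool.false_eq_true, if_false]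
    rw [← mul_assoc, ← pow_succ]
    norm_cast
  · have e1 : KK q true * (LL q true)⁻¹ = (q .a * q .b)⁻¹ := by
      unfold KK LL ow wl
      simp only [if_true, mul_inv_rev, hi]
      exact c _ _
    have e2 : KK q true = (q .a * q .b)⁻¹ * LL q true := by
      unfold KK LL ow wl
      simp only [if_true, mul_inv_rev, hi]
      exact (e3 _ _ _ (hq .a)).symm
    rw [e1]
    nth_rw 1 [e2]
    simp only [if_true]
    rw [← mul_assoc, ← pow_succ, inv_pow, zpow_neg]
    norm_cast

include hq in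
theorem LL_Lt (m : ℤ) : LL q (bw m) = Lt (q .a * q .t) (q .a * q .b) m := by
  have hi : ∀ i, (q i)⁻¹ = q i := fun i => inv_eq_of_mul_eq_one_left (hq i)
  have hb : bw m = B8 m := by
    rw [B8_eq]
    rfl
  unfold LL wl Lt
  rw [hb]
  split_ifs
  · rfl
  · rw [mul_inv_rev, hi, hi, mul_assoc, ← mul_assoc (q .a) (q .a), hq, one_mul]

theorem gz_congr {f f' : ℤ → Q} {s s' : ℤ} (h : ∀ i, f (s + i) = f' (s' + i)) (m : ℤ) : gz f s m = gz f' s' m := by
  induction m using Int.induction_on with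
  | zero => simp
  | succ i ih => rw [gz_succ, gz_succ, ih, h]
  | pred i ih =>
    have h1 := gz_succ f s (-(i : ℤ) - 1)
    have h2 := gz_succ f' s' (-(i : ℤ) - 1)
    rw [sub_add_cancel] at h1 h2
    rw [h1, h2, h] at ih
    exact mul_right_cancel ih

end word

/-! ### Sites over words -/

section ovr

variable {Q : Type u} [Group Q] {B : Lb.{u, v} Q} {l : L3 → B.L} {L : AddSubgroup (ℤ × ℤ)} (c : Cov B l L)
  (hi : ∀ i, B.inv (l i) = l i)

include hi in
theorem over_a {y : Q} {s C : ℤ} (h : (C - s) % 2 = 0) :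
    c.Over (y * (qq B l .a * qq B l .t)) (Pat.lv (s + 1) (C + 1)) ↔ c.Over y (Pat.lv s C) := by
  rw [← mul_assoc, ← Pat.nb_lv_t' (s := s) (c := C + 1) (by omega), ← Pat.nb_lv_a h]
  exact (c.over_step_iff hi).trans (c.over_step_iff hi)

include hi in
theorem over_s {y : Q} {s C : ℤ} (h : (C - s) % 2 = 0) :
    c.Over (y * (qq B l .a * qq B l .b)) (Pat.lv s (C + 2)) ↔ c.Over y (Pat.lv s C) := by
  have e : C + 2 = C + 1 + 1 := by ring
  rw [← mul_assoc, e, ← Pat.nb_lv_b' (s := s) (c := C + 1) (by omega), ← Pat.nb_lv_a h]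
  exact (c.over_step_iff hi).trans (c.over_step_iff hi)

/-- `x` moves the white sites by `d` levels and `e` columns. -/
def Dsp (x : Q) (d e : ℤ) : Prop := (e - d) % 2 = 0 ∧ ∀ (y : Q) (s C : ℤ), (C - s) % 2 = 0 →
  (c.Over (y * x) (Pat.lv (s + d) (C + e)) ↔ c.Over y (Pat.lv s C))

variable {c}

theorem Dsp.one : Dsp c 1 0 0 := ⟨by norm_num, fun y s C _ => by rw [mul_one, add_zero, add_zero]⟩

theorem Dsp.mul {x x' : Q} {d e d' e' : ℤ} (h : Dsp c x d e) (h' : Dsp c x' d' e') : Dsp c (x * x') (d + d') (e + e') := by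
  have h1 := h.1
  have h2 := h'.1
  refine ⟨by omega, fun y s C hp => ?_⟩
  rw [← mul_assoc, ← add_assoc, ← add_assoc]
  exact (h'.2 (y * x) (s + d) (C + e) (by omega)).trans (h.2 y s C hp)

theorem Dsp.inv {x : Q} {d e : ℤ} (h : Dsp c x d e) : Dsp c x⁻¹ (-d) (-e) := by
  have h1 := h.1
  refine ⟨by omega, fun y s C hp => ?_⟩
  have := h.2 (y * x⁻¹) (s + -d) (C + -e) (by omega)
  rw [inv_mul_cancel_right, neg_add_cancel_right, neg_add_cancel_right] at this
  exact this.symm

theorem Dsp.zpow {x : Q} {d e : ℤ} (h : Dsp c x d e) (n : ℤ) : Dsp c (x ^ n) (n * d) (n * e) := by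
  have hn : ∀ n : ℕ, Dsp c (x ^ n) (n * d) (n * e) := by
    intro n
    induction n with
    | zero => simpa using Dsp.one
    | succ n ih =>
      have := ih.mul h
      rw [pow_succ]
      have e1 : ((n + 1 : ℕ) : ℤ) * d = n * d + d := by push_cast; ring
      have e2 : ((n + 1 : ℕ) : ℤ) * e = n * e + e := by push_cast; ring
      rw [e1, e2]
      exact this
  obtain ⟨n, rfl | rfl⟩ := n.eq_nat_or_neg
  · rw [zpow_natCast]
    exact hn n
  · rw [zpow_neg, zpow_natCast, neg_mul, neg_mul]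
    exact (hn n).inv

variable (c)

include hi in
theorem dsp_a : Dsp c (qq B l .a * qq B l .t) 1 1 := ⟨by norm_num, fun _ _ _ h => over_a c hi h⟩

include hi in
theorem dsp_s : Dsp c (qq B l .a * qq B l .b) 0 2 :=
  ⟨by norm_num, fun _ _ _ h => by rw [add_zero]; exact over_s c hi h⟩

include hi in
theorem dsp_closure {x : Q} (hx : x ∈ closure {qq B l .a * qq B l .t, qq B l .a * qq B l .b}) : ∃ d e, Dsp c x d e := by
  induction hx using Subgroup.closure_induction with
  | mem x hx =>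
    rcases hx with rfl | rfl
    · exact ⟨1, 1, dsp_a c hi⟩
    · exact ⟨0, 2, dsp_s c hi⟩
  | one => exact ⟨0, 0, Dsp.one⟩
  | mul x y _ _ hx hy =>
    obtain ⟨d, e, h⟩ := hx
    obtain ⟨d', e', h'⟩ := hy
    exact ⟨_, _, h.mul h'⟩
  | inv x _ hx =>
    obtain ⟨d, e, h⟩ := hx
    exact ⟨_, _, h.inv⟩

include hi in
theorem dsp_K0 {x : Q} (hx : x ∈ K0 (qq B l .a * qq B l .t) (qq B l .a * qq B l .b)) : Dsp c x 0 0 := by
  have key : K0 (qq B l .a * qq B l .t) (qq B l .a * qq B l .b) ≤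
      { carrier := {x | Dsp c x 0 0}
        one_mem' := Dsp.one
        mul_mem' := fun h h' => by simpa using h.mul h'
        inv_mem' := fun h => by simpa using h.inv : Subgroup Q } := by
    refine Subgroup.commutator_le.2 fun x hx y hy => ?_
    obtain ⟨d, e, h⟩ := dsp_closure c hi hx
    obtain ⟨d', e', h'⟩ := dsp_closure c hi hy
    show Dsp c ⁅x, y⁆ 0 0
    rw [commutatorElement_def]
    have := ((h.mul h').mul h.inv).mul h'.inv
    have e1 : d + d' + -d + -d' = 0 := by ring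
    have e2 : e + e' + -e + -e' = 0 := by ring
    rwa [e1, e2] at this
  exact key hx

include hi in
/-- The wall word. -/
theorem dsp_W {W : ℤ → Q} {zc : Q} {k : ℕ} (hW : LamW (qq B l .a * qq B l .t) (qq B l .a * qq B l .b) zc W k) (m : ℤ) :
    Dsp c (W m) m (col m) := by
  have hL : ∀ m, Dsp c (Lt (qq B l .a * qq B l .t) (qq B l .a * qq B l .b) m) 1 (col (m + 1) - col m) := by
    intro m
    have c5 := col_succ m
    have hb : bw m = B8 m := by
      rw [B8_eq]
      rfl
    rw [hb] at c5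
    unfold Lt
    cases hB : B8 m
    · rw [hB] at c5
      simp only [Bool.false_eq_true, if_false] at c5 ⊢
      have := (dsp_s c hi).inv.mul (dsp_a c hi)
      have e1 : col (m + 1) - col m = -2 + 1 := by omega
      rw [e1]
      simpa using this
    · rw [hB] at c5
      simp only [if_true] at c5 ⊢
      have e1 : col (m + 1) - col m = 1 := by omega
      rw [e1]
      exact dsp_a c hi
  have c0 : col 0 = 0 := by simp [col]
  induction m using Int.induction_on with
  | zero => rw [hW.z, c0]; exact Dsp.one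
  | succ i ih =>
    rw [hW.st]
    have := ih.mul (hL i)
    rwa [add_sub_cancel] at this
  | pred i ih =>
    have h := hW.st (-(i : ℤ) - 1)
    rw [sub_add_cancel] at h
    have h2 := ih.mul (hL (-(i : ℤ) - 1)).inv
    rw [h, mul_inv_cancel_right, sub_add_cancel] at h2
    have e1 : -(i : ℤ) + -1 = -i - 1 := by ring
    have e2 : col (-(i : ℤ)) + -(col (-(i : ℤ)) - col (-(i : ℤ) - 1)) = col (-(i : ℤ) - 1) := by ring
    rwa [e1, e2] at h2

end ovr

end Pool.Agent.Lib.MP_688fd0_co.SQ5.H48
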