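import Pool.Agent.Lib.MP_688fd0_co.SQ5.H48.LamCD
import Pool.Agent.Lib.MP_688fd0_co.SQ5.H76.Bundle

/-!
MP_688fd0_co, type C2, FAR-3, design B' (finding 4349), row LAM (helper48): FOUR RUNS ARE CONNECTED.

Nodes `(z, κ, x)`: run `z ≤ 3`, strand `κ ∈ [2, w + 1]`, `x` = the element at its start site (block 0 of the run). `Pk κ m` = the word
of the strand from block 0 to block `m`. `Ok z y`: `y` lies over the site of the wall 2 at block 0 of run `z`. `LamD`: `Rel` is an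
equivalence relation which contains the rungs of the blocks `m0 .. m0 + 8 e` and the events for undrifted strands. Then all nodes
are equivalent.
-/

set_option autoImplicit false

namespace Pool.Agent.Lib.MP_688fd0_co.SQ5.H48

open Pool.Agent.Lib.MP_688fd0_co.SQ5.H20
open Pool.Agent.Lib.MP_688fd0_co.SQ5.H76 (col gz gz_succ gz_nat gz_add gz_zero)
open Subgroup
open scoped commutatorElement

variable {G : Type*} [Group G]

/-- The word of the strand `κ` from block 0 to block `m`. -/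
def Pk (al s : G) (nn : ℤ → ℤ) (κ m : ℤ) : G := gz (stw al s nn κ) 0 m

/-- The row of the strand `κ` at block `m`, relative to its row at block 0. -/
def Uk (al s : G) (nn : ℤ → ℤ) (κ m : ℤ) : G := s ^ nn κ * Pk al s nn κ m * (s ^ nn (κ - col m))⁻¹

/-- The strand `κ` through the row `Y` of block `m`. -/
def ph (al s : G) (nn : ℤ → ℤ) (κ m : ℤ) (Y : G) : G := Y * (Uk al s nn κ m)⁻¹ * s ^ nn κ

section Words

variable {al s : G} {nn : ℤ → ℤ}

theorem Pk_succ (κ m : ℤ) : Pk al s nn κ (m + 1) = Pk al s nn κ m * stw al s nn κ m := by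
  unfold Pk
  rw [gz_succ, zero_add]

theorem Uk_mul (κ m : ℤ) : s ^ nn κ * Pk al s nn κ m = Uk al s nn κ m * s ^ nn (κ - col m) := by
  unfold Uk
  rw [inv_mul_cancel_right]

theorem Uk_zero (κ : ℤ) : Uk al s nn κ 0 = 1 := by
  have h : col 0 = 0 := by simp [col]
  unfold Uk Pk
  rw [gz_zero, h, sub_zero, mul_one, mul_inv_cancel]

theorem stw_mul (κ m : ℤ) : s ^ nn (κ - col m) * stw al s nn κ m = s ^ nn (κ - col (m + 1)) * Lt al s m := by
  unfold stw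
  rw [← mul_assoc, ← zpow_add]
  congr 2
  ring

theorem Uk_succ (κ m : ℤ) : Uk al s nn κ (m + 1) =
    Uk al s nn κ m * (s ^ nn (κ - col (m + 1)) * Lt al s m * (s ^ nn (κ - col (m + 1)))⁻¹) := by
  have h1 : s ^ nn κ * Pk al s nn κ (m + 1) = Uk al s nn κ m * (s ^ nn (κ - col (m + 1)) * Lt al s m) := by
    rw [Pk_succ, ← mul_assoc, Uk_mul, mul_assoc, stw_mul]
  unfold Uk at h1 ⊢
  rw [h1]
  simp only [mul_assoc]

theorem ph_Pk (κ m : ℤ) (Y : G) : ph al s nn κ m Y * Pk al s nn κ m = Y * s ^ nn (κ - col m) := by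
  unfold ph
  rw [mul_assoc, Uk_mul, mul_assoc, inv_mul_cancel_left]

theorem ph_cross (κ m : ℤ) (Y : G) :
    ph al s nn κ (m + 1) (Y * (s ^ nn (κ - col (m + 1)) * Lt al s m * (s ^ nn (κ - col (m + 1)))⁻¹)) = ph al s nn κ m Y := by
  unfold ph
  rw [Uk_succ]
  group

theorem ph_rung {κ κ' m : ℤ} (h : κ' = κ + col (m + 1) - col m) (Y : G) :
    ph al s nn κ m Y * Pk al s nn κ m * Lt al s m = ph al s nn κ' m Y * Pk al s nn κ' (m + 1) := by
  rw [ph_Pk, Pk_succ, ← mul_assoc, ph_Pk, mul_assoc, mul_assoc, stw_mul]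
  have : κ' - col (m + 1) = κ - col m := by omega
  rw [this]

/-- the commutator subgroup -/
abbrev K0 (al s : G) : Subgroup G := ⁅closure {al, s}, closure {al, s}⁆

theorem K0_conj {g x : G} (hg : g ∈ K0 al s) (hx : x ∈ closure {al, s}) : x * g * x⁻¹ ∈ K0 al s := by
  have hn : K0 al s ≤ closure {al, s} := Subgroup.commutator_le.2 fun a ha b hb => by
    rw [commutatorElement_def]
    exact mul_mem (mul_mem (mul_mem ha hb) (inv_mem ha)) (inv_mem hb)
  have h1 : ⁅x, g⁆ ∈ K0 al s := commutator_mem_commutator hx (hn hg)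
  have h2 : x * g * x⁻¹ = ⁅x, g⁆ * g := by
    rw [commutatorElement_def]; group
  rw [h2]
  exact mul_mem h1 hg

variable {zc : G} {W : ℤ → G} {k : ℕ} (hW : LamW al s zc W k)

include hW in
theorem Uk_W (κ m : ℤ) : Uk al s nn κ m * (W m)⁻¹ ∈ K0 al s := by
  have h2 : s ∈ closure {al, s} := subset_closure (by simp)
  have st : ∀ m, Uk al s nn κ (m + 1) * (W (m + 1))⁻¹ =
      Uk al s nn κ m * (W m)⁻¹ * (W m * ⁅s ^ nn (κ - col (m + 1)), Lt al s m⁆ * (W m)⁻¹) := by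
    intro m
    rw [Uk_succ, hW.st, commutatorElement_def]
    group
  have hc : ∀ m, W m * ⁅s ^ nn (κ - col (m + 1)), Lt al s m⁆ * (W m)⁻¹ ∈ K0 al s := fun m =>
    K0_conj (commutator_mem_commutator (zpow_mem h2 _) (Lt_mem m)) (W_mem hW m)
  induction m using Int.induction_on with
  | zero => rw [Uk_zero, hW.z]; simp
  | succ i ih => rw [st]; exact mul_mem ih (hc _)
  | pred i ih =>
    have h := st (-(i : ℤ) - 1)
    rw [sub_add_cancel] at h
    rw [h] at ih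
    have := mul_mem ih (inv_mem (hc (-(i : ℤ) - 1)))
    rwa [sub_add_cancel, mul_inv_cancel_right] at this

theorem gz_per (f : ℤ → G) (p : ℤ) (z : G) (hf : ∀ m, f (m + p) = f m) (h0 : gz f 0 p = z) (m : ℤ) :
    gz f 0 (m + p) = z * gz f 0 m := by
  have key : ∀ n : ℤ, gz f p n = gz f 0 n := by
    intro n
    induction n using Int.induction_on with
    | zero => simp
    | succ i ih => rw [gz_succ, gz_succ, ih, zero_add, add_comm p, hf]
    | pred i ih =>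
      have h1 := gz_succ f p (-(i : ℤ) - 1)
      have h2 := gz_succ f 0 (-(i : ℤ) - 1)
      rw [sub_add_cancel] at h1 h2
      rw [h1, h2, zero_add, add_comm p, hf] at ih
      exact mul_right_cancel ih
  rw [add_comm, gz_add, zero_add, h0, key]

theorem stw_SG {a b t : G} (ha : a * a = 1) (hb : b * b = 1) {w : ℤ} (hc : Cols nn w) {κ : ℤ} (h0 : 3 ≤ κ) (h1 : κ ≤ w) :
    stw (a * t) (a * b) nn κ = SG a b t := by
  funext m
  have c1 := H76.col_nonneg m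
  have c2 := H76.col_le m
  have c3 := H76.col_nonneg (m + 1)
  have c4 := H76.col_le (m + 1)
  have c5 := H76.col_succ m
  have hbw : H76.bw m = B8 m := by
    rw [B8_eq]
    rfl
  rw [hbw] at c5
  have ia : a⁻¹ = a := inv_eq_of_mul_eq_one_left ha
  have ib : b⁻¹ = b := inv_eq_of_mul_eq_one_left hb
  unfold stw SG LG KG Lt
  rw [hc.mid _ (by omega) (by omega), hc.mid _ (by omega) (by omega)]
  cases hB : B8 m
  · rw [hB] at c5
    simp only [Bool.false_eq_true, if_false] at c5 ⊢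
    have e1 : 2 * (κ - col (m + 1) - 2) - 2 * (κ - col m - 2) = 2 := by rw [c5]; ring
    rw [e1, z2]
    simp only [mul_inv_rev, ia, ib, mul_assoc]
    have e2 : b * (a * (a * t)) = b * t := by rw [← mul_assoc a a, ha, one_mul]
    rw [e2, ← mul_assoc b b, hb, one_mul]
    have e3 : t * (t⁻¹ * (b * (a * t))) = b * (a * t) := mul_inv_cancel_left _ _
    rw [e3]
  · rw [hB] at c5
    simp only [if_true] at c5 ⊢
    have e1 : 2 * (κ - col (m + 1) - 2) - 2 * (κ - col m - 2) = -2 := by rw [c5]; ring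
    rw [e1, zm2]
    simp only [mul_inv_rev, ia, ib, mul_assoc]
    have e2 : a * (a * t) = t := by rw [← mul_assoc a a, ha, one_mul]
    rw [e2]
    have e3 : t * (t⁻¹ * (a * (b * t))) = a * (b * t) := mul_inv_cancel_left _ _
    rw [e3]

end Words

/-! ### Four runs -/

/-- The hypotheses. -/
structure LamD (al s zc : G) (W : ℤ → G) (nn : ℤ → ℤ) (w : ℤ) (e : ℕ) (m0 : ℤ) (l : ℕ → ℕ) (Ok : ℕ → G → Prop)
    (Rel : ℕ × ℤ × G → ℕ × ℤ × G → Prop) : Prop where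
  eqv : Equivalence Rel
  m00 : ∃ j : ℤ, m0 = 8 * e * j
  K : ∀ z y g, g ∈ K0 al s → Ok z y → Ok z (y * g)
  Ev : ∀ z : ℕ, z ≤ 2 → ∀ y, Ok z y ↔ Ok (z + 1) (y * zc ^ l z * W 3)
  R1 : ∀ z : ℕ, z ≤ 3 → ∀ κ κ' m : ℤ, 2 ≤ κ → κ ≤ w + 1 → 2 ≤ κ' → κ' ≤ w + 1 → m0 ≤ m → m ≤ m0 + 8 * e →
    κ' = κ + col (m + 1) - col m → ∀ x x' : G, Ok z (x * (s ^ nn κ)⁻¹) → Ok z (x' * (s ^ nn κ')⁻¹) →
    x * Pk al s nn κ m * Lt al s m = x' * Pk al s nn κ' (m + 1) → Rel (z, κ, x) (z, κ', x')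
  R2 : ∀ z : ℕ, z ≤ 2 → ∀ κ : ℤ, 4 ≤ κ → κ ≤ w → ∀ x : G, Ok z (x * (s ^ nn κ)⁻¹) →
    Rel (z, κ, x) (z + 1, κ - 1, x * Pk al s nn κ (8 * e * l z + 3))

section Four

variable {al s zc : G} {W : ℤ → G} {nn : ℤ → ℤ} {w : ℤ} {e : ℕ} {m0 : ℤ} {l : ℕ → ℕ} {Ok : ℕ → G → Prop}
  {Rel : ℕ × ℤ × G → ℕ × ℤ × G → Prop}

theorem LamD.ok (D : LamD al s zc W nn w e m0 l Ok Rel) (hW : LamW al s zc W e) {z : ℕ} (κ m : ℤ) {Y : G}
    (h : Ok z (Y * (W m)⁻¹)) : Ok z (ph al s nn κ m Y * (s ^ nn κ)⁻¹) := by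
  have h1 := inv_mem (Uk_W (nn := nn) hW κ m)
  rw [mul_inv_rev, inv_inv] at h1
  have h2 := D.K z _ _ h1 h
  have e1 : Y * (W m)⁻¹ * (W m * (Uk al s nn κ m)⁻¹) = ph al s nn κ m Y * (s ^ nn κ)⁻¹ := by
    unfold ph
    group
  rwa [e1] at h2

/-- The strands of one row. -/
theorem LamD.row (D : LamD al s zc W nn w e m0 l Ok Rel) (hW : LamW al s zc W e) {z : ℕ} (hz : z ≤ 3) {m : ℤ}
    (h0 : m0 ≤ m) (h1 : m ≤ m0 + 8 * e) {Y : G} (hY : Ok z (Y * (W m)⁻¹)) {κ : ℤ} (k0 : 2 ≤ κ) (k1 : κ ≤ w + 1) :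
    Rel (z, 2, ph al s nn 2 m Y) (z, κ, ph al s nn κ m Y) := by
  have step : ∀ κ : ℤ, 2 ≤ κ → κ + 1 ≤ w + 1 → Rel (z, κ, ph al s nn κ m Y) (z, κ + 1, ph al s nn (κ + 1) m Y) := by
    intro κ a0 a1
    have c5 := H76.col_succ m
    cases hB : H76.bw m
    · rw [hB] at c5
      simp only [Bool.false_eq_true, if_false] at c5
      exact D.eqv.symm (D.R1 z hz (κ + 1) κ m (by omega) a1 a0 (by omega) h0 h1 (by omega) _ _ (D.ok hW _ _ hY)
        (D.ok hW _ _ hY) (ph_rung (by omega) Y))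
    · rw [hB] at c5
      simp only [if_true] at c5
      exact D.R1 z hz κ (κ + 1) m a0 (by omega) (by omega) a1 h0 h1 (by omega) _ _ (D.ok hW _ _ hY)
        (D.ok hW _ _ hY) (ph_rung (by omega) Y)
  obtain ⟨i, rfl⟩ : ∃ i : ℕ, κ = 2 + i := ⟨(κ - 2).toNat, by omega⟩
  induction i with
  | zero => simpa using D.eqv.refl _
  | succ i ih =>
    have h2 := ih (by omega) (by push_cast at k1; omega)
    have h3 := step (2 + i) (by omega) (by push_cast at k1; omega)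
    have e1 : (2 : ℤ) + ((i + 1 : ℕ) : ℤ) = 2 + i + 1 := by push_cast; ring
    rw [e1]
    exact D.eqv.trans h2 h3

theorem LamD.row' (D : LamD al s zc W nn w e m0 l Ok Rel) (hW : LamW al s zc W e) {z : ℕ} (hz : z ≤ 3) {m : ℤ}
    (h0 : m0 ≤ m) (h1 : m ≤ m0 + 8 * e) {Y : G} (hY : Ok z (Y * (W m)⁻¹)) {κ κ' : ℤ} (k0 : 2 ≤ κ) (k1 : κ ≤ w + 1)
    (k0' : 2 ≤ κ') (k1' : κ' ≤ w + 1) : Rel (z, κ, ph al s nn κ m Y) (z, κ', ph al s nn κ' m Y) :=
  D.eqv.trans (D.eqv.symm (D.row hW hz h0 h1 hY k0 k1)) (D.row hW hz h0 h1 hY k0' k1')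

/-- One step: the strand `κ` passes from the row `Y` of block `m` to its row of block `m + 1`. -/
theorem LamD.cross (D : LamD al s zc W nn w e m0 l Ok Rel) (hW : LamW al s zc W e) {z : ℕ} (hz : z ≤ 3) {m : ℤ}
    (h0 : m0 ≤ m) (h1 : m + 1 ≤ m0 + 8 * e) {Y : G} (hY : Ok z (Y * (W m)⁻¹)) {κ : ℤ} (k0 : 2 ≤ κ) (k1 : κ ≤ w + 1) :
    Ok z (Y * (s ^ nn (κ - col (m + 1)) * Lt al s m * (s ^ nn (κ - col (m + 1)))⁻¹) * (W (m + 1))⁻¹) ∧
    Rel (z, 2, ph al s nn 2 m Y)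
      (z, 2, ph al s nn 2 (m + 1) (Y * (s ^ nn (κ - col (m + 1)) * Lt al s m * (s ^ nn (κ - col (m + 1)))⁻¹))) := by
  have h2 : s ∈ closure {al, s} := subset_closure (by simp)
  have hok : Ok z (Y * (s ^ nn (κ - col (m + 1)) * Lt al s m * (s ^ nn (κ - col (m + 1)))⁻¹) * (W (m + 1))⁻¹) := by
    have hg : W m * ⁅s ^ nn (κ - col (m + 1)), Lt al s m⁆ * (W m)⁻¹ ∈ K0 al s :=
      K0_conj (commutator_mem_commutator (zpow_mem h2 _) (Lt_mem m)) (W_mem hW m)
    have h3 := D.K z _ _ hg hY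
    have e1 : Y * (W m)⁻¹ * (W m * ⁅s ^ nn (κ - col (m + 1)), Lt al s m⁆ * (W m)⁻¹) =
        Y * (s ^ nn (κ - col (m + 1)) * Lt al s m * (s ^ nn (κ - col (m + 1)))⁻¹) * (W (m + 1))⁻¹ := by
      rw [hW.st, commutatorElement_def]
      group
    rwa [e1] at h3
  refine ⟨hok, ?_⟩
  have h3 := D.row hW hz h0 (by omega) hY k0 k1
  have h4 := D.row hW hz (by omega) h1 hok k0 k1
  rw [ph_cross] at h4
  exact D.eqv.trans h3 (D.eqv.symm h4)

/-- Along the wall 2. -/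
theorem LamD.along (D : LamD al s zc W nn w e m0 l Ok Rel) (hW : LamW al s zc W e) (hc : Cols nn w) (hw : 3 ≤ w) {z : ℕ}
    (hz : z ≤ 3) {y : G} (hy : Ok z y) {m : ℤ} (h0 : m0 ≤ m) (h1 : m ≤ m0 + 8 * e) :
    Rel (z, 2, ph al s nn 2 m0 (y * W m0)) (z, 2, ph al s nn 2 m (y * W m)) := by
  obtain ⟨i, rfl⟩ : ∃ i : ℕ, m = m0 + i := ⟨(m - m0).toNat, by omega⟩
  induction i with
  | zero => simpa using D.eqv.refl _
  | succ i ih =>
    have h2 := ih (by omega) (by push_cast at h1; omega)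
    have c1 := H76.col_nonneg (m0 + i + 1)
    have c2 := H76.col_le (m0 + i + 1)
    have h3 := (D.cross hW hz (m := m0 + i) (by omega) (by push_cast at h1; omega) (Y := y * W (m0 + i))
      (by rwa [mul_inv_cancel_right]) (κ := 2 + col (m0 + i + 1)) (by omega) (by omega)).2
    have e1 : m0 + ((i + 1 : ℕ) : ℤ) = m0 + i + 1 := by push_cast; ring
    have e2 : nn (2 + col (m0 + i + 1) - col (m0 + i + 1)) = 0 := by
      rw [add_sub_cancel_right, hc.mid 2 (by omega) (by omega)]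
      norm_num
    rw [e2, zpow_zero, one_mul, inv_one, mul_one] at h3
    rw [e1, hW.st, ← mul_assoc]
    exact D.eqv.trans h2 h3

end Four

end Pool.Agent.Lib.MP_688fd0_co.SQ5.H48
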