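import Pool.Agent.Lib.MP_688fd0_co.SQ5.H48.LamR

/-!
MP_688fd0_co, type C2, FAR-3, design B' (finding 4349), row LAM (helper48): FOUR RUNS ARE CONNECTED, main theorem `lamD_conn`.
-/

set_option autoImplicit false

namespace Pool.Agent.Lib.MP_688fd0_co.SQ5.H48

open Pool.Agent.Lib.MP_688fd0_co.SQ5.H20
open Pool.Agent.Lib.MP_688fd0_co.SQ5.H76 (col gz gz_succ gz_nat gz_add gz_zero)
open Subgroup
open scoped commutatorElement

variable {G : Type*} [Group G]

section Per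

variable {al s zc : G} {W : ℤ → G} {k : ℕ} (hW : LamW al s zc W k)

include hW in
theorem zc_comm {x : G} (hx : x ∈ closure {al, s}) : Commute zc x := by
  have : closure {al, s} ≤ centralizer {zc} := by
    rw [closure_le]
    rintro y (rfl | rfl)
    · exact mem_centralizer_singleton_iff.2 hW.ca.symm
    · exact mem_centralizer_singleton_iff.2 hW.cs.symm
  exact (mem_centralizer_singleton_iff.1 (this hx)).symm

theorem per_zpow {f : ℤ → G} {p : ℤ} {z : G} (h : ∀ m, f (m + p) = z * f m) (m j : ℤ) : f (m + p * j) = z ^ j * f m := by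
  induction j using Int.induction_on with
  | zero => simp
  | succ i ih =>
    have e : m + p * ((i : ℤ) + 1) = m + p * i + p := by ring
    rw [e, h, ih, ← mul_assoc, ← zpow_one_add, add_comm]
  | pred i ih =>
    have h1 := h (m + p * (-(i : ℤ) - 1))
    have e : m + p * (-(i : ℤ) - 1) + p = m + p * -(i : ℤ) := by ring
    rw [e, ih] at h1
    rw [← mul_left_cancel_iff (a := z), ← h1, ← mul_assoc, ← zpow_one_add]
    congr 2
    ring

include hW in
theorem W_per (m j : ℤ) : W (m + 8 * k * j) = zc ^ j * W m := per_zpow hW.per m j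

theorem col_per' (m : ℤ) (k : ℕ) (j : ℤ) : col (m + 8 * k * j) = col m := by
  have : (m + 8 * k * j) % 8 = m % 8 := by
    have e : (8 : ℤ) * k * j = 8 * (k * j) := by ring
    rw [e]
    omega
  unfold col
  rw [this]

theorem Lt_per' (m : ℤ) (k : ℕ) (j : ℤ) : Lt al s (m + 8 * k * j) = Lt al s m := by
  have : (m + 8 * k * j) % 8 = m % 8 := by
    have e : (8 : ℤ) * k * j = 8 * (k * j) := by ring
    rw [e]
    omega
  unfold Lt
  rw [B8_eq, B8_eq, this]

theorem Pk_mem (nn : ℤ → ℤ) (κ m : ℤ) : Pk al s nn κ m ∈ closure {al, s} := by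
  have h2 : s ∈ closure {al, s} := subset_closure (by simp)
  have hs : ∀ m, stw al s nn κ m ∈ closure {al, s} := fun m => mul_mem (zpow_mem h2 _) (Lt_mem m)
  induction m using Int.induction_on with
  | zero =>
    unfold Pk
    rw [gz_zero]
    exact one_mem _
  | succ i ih => rw [Pk_succ]; exact mul_mem ih (hs _)
  | pred i ih =>
    have h := Pk_succ (al := al) (s := s) (nn := nn) κ (-(i : ℤ) - 1)
    rw [sub_add_cancel] at h
    rw [h] at ih
    have := mul_mem ih (inv_mem (hs (-(i : ℤ) - 1)))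
    rwa [mul_inv_cancel_right] at this

theorem Uk_mem (nn : ℤ → ℤ) (κ m : ℤ) : Uk al s nn κ m ∈ closure {al, s} := by
  have h2 : s ∈ closure {al, s} := subset_closure (by simp)
  exact mul_mem (mul_mem (zpow_mem h2 _) (Pk_mem nn κ m)) (inv_mem (zpow_mem h2 _))

end Per

section Four

variable {al s zc : G} {W : ℤ → G} {nn : ℤ → ℤ} {w : ℤ} {e : ℕ} {m0 : ℤ} {l : ℕ → ℕ} {Ok : ℕ → G → Prop}
  {Rel : ℕ × ℤ × G → ℕ × ℤ × G → Prop}

theorem W3 (hW : LamW al s zc W e) : W 3 = al * al * (s⁻¹ * al) := by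
  have e2 : (3 : ℤ) = 0 + 1 + 1 + 1 := by ring
  rw [e2, hW.st, hW.st, hW.st, hW.z]
  have b0 : Lt al s 0 = al := by simp [Lt, B8_eq]
  have b1 : Lt al s (0 + 1) = al := by simp [Lt, B8_eq]
  have b2 : Lt al s (0 + 1 + 1) = s⁻¹ * al := by simp [Lt, B8_eq]
  rw [b0, b1, b2, one_mul]

/-- THE EVENT. -/
theorem LamD.event (D : LamD al s zc W nn w e m0 l Ok Rel) (hW : LamW al s zc W e)
    (hU : ∀ κ, 3 ≤ κ → κ ≤ w → ∀ m, Uk al s nn κ (m + 8 * e) = zc * Uk al s nn κ m) (hc : Cols nn w) (e0 : 0 < e)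
    (hw : 4 ≤ w) {z : ℕ} (hz : z ≤ 2) {y : G} (hy : Ok z y) :
    Rel (z, 2, ph al s nn 2 m0 (y * W m0)) (z + 1, 2, ph al s nn 2 m0 (y * zc ^ l z * W 3 * W m0)) := by
  obtain ⟨j, hj⟩ := D.m00
  have hU' : ∀ κ, 3 ≤ κ → κ ≤ w → ∀ m j, Uk al s nn κ (m + 8 * e * j) = zc ^ j * Uk al s nn κ m :=
    fun κ h0 h1 m j => per_zpow (hU κ h0 h1) m j
  have h2 : s ∈ closure {al, s} := subset_closure (by simp)
  have hy' : Ok (z + 1) (y * zc ^ l z * W 3) := (D.Ev z hz y).1 hy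
  have s1 := D.along hW hc (by omega) (z := z) (by omega) hy (m := m0 + 3) (by omega) (by omega)
  have hY : Ok z (y * W (m0 + 3) * (W (m0 + 3))⁻¹) := by rwa [mul_inv_cancel_right]
  have s2 := D.row hW (z := z) (by omega) (m := m0 + 3) (by omega) (by omega) hY (κ := 4) (by omega) (by omega)
  have s3 := D.R2 z hz 4 (by omega) (by omega) _ (D.ok hW 4 (m0 + 3) hY)
  have hY' : Ok (z + 1) (y * zc ^ l z * W 3 * W m0 * (W m0)⁻¹) := by rwa [mul_inv_cancel_right]
  have s4 := D.row hW (z := z + 1) (by omega) (m := m0) le_rfl (by omega) hY' (κ := 3) (by omega) (by omega)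
  have key : ph al s nn 4 (m0 + 3) (y * W (m0 + 3)) * Pk al s nn 4 (8 * e * l z + 3) =
      ph al s nn 3 m0 (y * zc ^ l z * W 3 * W m0) := by
    have a1 : Uk al s nn 4 (m0 + 3) = zc ^ j * Uk al s nn 4 3 := by
      have := hU' 4 (by omega) (by omega) 3 j
      rw [← this]
      congr 1
      rw [hj]
      ring
    have a2 : Uk al s nn 4 (8 * e * l z + 3) = zc ^ (l z : ℤ) * Uk al s nn 4 3 := by
      have := hU' 4 (by omega) (by omega) 3 (l z)
      rw [← this]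
      congr 1
      ring
    have a3 : Uk al s nn 3 m0 = zc ^ j := by
      have := hU' 3 (by omega) (by omega) 0 j
      rw [Uk_zero, mul_one] at this
      rw [← this]
      congr 1
      rw [hj]
      ring
    have a4 : W (m0 + 3) = zc ^ j * W 3 := by
      rw [← W_per hW]
      congr 1
      rw [hj]
      ring
    have a5 : W m0 = zc ^ j := by
      have := W_per hW 0 j
      rw [hW.z, mul_one, zero_add] at this
      rw [← this, hj]
    have a6 : col (8 * (e : ℤ) * l z + 3) = 1 := by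
      have := col_per' 3 e (l z)
      rw [add_comm, this]
      simp [col]
    have z1 : Commute zc (Uk al s nn 4 3) := zc_comm hW (Uk_mem nn 4 3)
    have z2 : Commute zc (W 3) := zc_comm hW (W_mem hW 3)
    have a7 : ph al s nn 4 (m0 + 3) (y * W (m0 + 3)) * Pk al s nn 4 (8 * e * l z + 3) =
        y * W (m0 + 3) * (Uk al s nn 4 (m0 + 3))⁻¹ * (Uk al s nn 4 (8 * e * l z + 3) * s ^ nn 3) := by
      have h5 := Uk_mul (al := al) (s := s) (nn := nn) 4 (8 * e * l z + 3)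
      rw [a6] at h5
      unfold ph
      rw [mul_assoc, h5]
      norm_num
    rw [a7, a1, a2, a4]
    unfold ph
    rw [a3, a5]
    have b1 : (zc ^ j * Uk al s nn 4 3)⁻¹ * (zc ^ (l z : ℤ) * Uk al s nn 4 3 * s ^ nn 3) =
        zc ^ (l z : ℤ) * (zc ^ j)⁻¹ * s ^ nn 3 := by
      have c1 : Commute (zc ^ (l z : ℤ)) (Uk al s nn 4 3) := z1.zpow_left _
      have c2 : Commute (zc ^ j) (Uk al s nn 4 3) := z1.zpow_left _
      rw [c1.eq, c2.eq]
      group
    have z3 : Commute (zc ^ j) (W 3) := z2.zpow_left _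
    have z4 : y * (zc ^ j * W 3) * (zc ^ j * Uk al s nn 4 3)⁻¹ * (zc ^ (l z : ℤ) * Uk al s nn 4 3 * s ^ nn 3) =
        y * (zc ^ j * W 3) * (zc ^ (l z : ℤ) * (zc ^ j)⁻¹ * s ^ nn 3) := by
      rw [← b1]
      simp only [mul_assoc]
    rw [z4, z3.eq]
    have z5 : Commute (W 3) (zc ^ (l z : ℤ)) := (z2.zpow_left _).symm
    have z6 : y * (W 3 * zc ^ j) * (zc ^ (l z : ℤ) * (zc ^ j)⁻¹ * s ^ nn 3) = y * (W 3 * zc ^ (l z : ℤ)) * s ^ nn 3 := by
      have c3 : Commute (zc ^ j) (zc ^ (l z : ℤ)) := (Commute.refl zc).zpow_zpow _ _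
      have c4 : zc ^ j * (zc ^ (l z : ℤ) * (zc ^ j)⁻¹ * s ^ nn 3) = zc ^ (l z : ℤ) * s ^ nn 3 := by
        rw [← mul_assoc, ← mul_assoc, c3.eq, mul_inv_cancel_right]
      rw [← mul_assoc y, mul_assoc (y * W 3), c4]
      simp only [mul_assoc]
    rw [z6, z5.eq, zpow_natCast]
    group
  have e1 : (4 : ℤ) - 1 = 3 := by norm_num
  rw [key, e1] at s3
  exact D.eqv.trans (D.eqv.trans s1 s2) (D.eqv.trans s3 (D.eqv.symm s4))

/-- The base element carried to the run `z`. -/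
def yz (zc : G) (W : ℤ → G) (l : ℕ → ℕ) : ℕ → G → G
  | 0, y => y
  | z + 1, y => yz zc W l z y * zc ^ l z * W 3

theorem yz_eq (hW : LamW al s zc W e) (z : ℕ) : ∃ i : ℕ, ∀ y, yz zc W l z y = y * (zc ^ i * (al * al * (s⁻¹ * al)) ^ z) := by
  induction z with
  | zero => exact ⟨0, fun y => by simp [yz]⟩
  | succ z ih =>
    obtain ⟨i, hi⟩ := ih
    refine ⟨i + l z, fun y => ?_⟩
    have h1 : al ∈ closure {al, s} := subset_closure (by simp)
    have h2 : s ∈ closure {al, s} := subset_closure (by simp)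
    have hv : (al * al * (s⁻¹ * al)) ^ z ∈ closure {al, s} :=
      pow_mem (mul_mem (mul_mem h1 h1) (mul_mem (inv_mem h2) h1)) z
    have hc : Commute (zc ^ l z) ((al * al * (s⁻¹ * al)) ^ z) := (zc_comm hW hv).pow_left _
    show yz zc W l z y * zc ^ l z * W 3 = _
    rw [hi, W3 hW, pow_succ, pow_add]
    simp only [mul_assoc]
    rw [← mul_assoc (zc ^ l z) ((al * (al * (s⁻¹ * al))) ^ z)]
    have hc' : Commute (zc ^ l z) ((al * (al * (s⁻¹ * al))) ^ z) := by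
      rw [mul_assoc] at hc
      exact hc
    rw [hc'.eq]
    simp only [mul_assoc]

theorem LamD.base (D : LamD al s zc W nn w e m0 l Ok Rel) (hW : LamW al s zc W e)
    (hU : ∀ κ, 3 ≤ κ → κ ≤ w → ∀ m, Uk al s nn κ (m + 8 * e) = zc * Uk al s nn κ m) (hc : Cols nn w) (e0 : 0 < e)
    (hw : 4 ≤ w) {z : ℕ} (hz : z ≤ 3) (y : G) :
    (Ok 0 y ↔ Ok z (yz zc W l z y)) ∧
    (Ok 0 y → Rel (0, 2, ph al s nn 2 m0 (y * W m0)) (z, 2, ph al s nn 2 m0 (yz zc W l z y * W m0))) := by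
  induction z with
  | zero => exact ⟨Iff.rfl, fun _ => D.eqv.refl _⟩
  | succ z ih =>
    obtain ⟨h1, h2⟩ := ih (by omega)
    refine ⟨h1.trans (D.Ev z (by omega) _), fun hy => ?_⟩
    exact D.eqv.trans (h2 hy) (D.event hW hU hc e0 hw (by omega) (h1.1 hy))

/-- The holonomy group. -/
def Hol (D : LamD al s zc W nn w e m0 l Ok Rel) : Subgroup G where
  carrier := {h | (∀ y, Ok 0 y ↔ Ok 0 (y * h)) ∧
    ∀ y, Ok 0 y → Rel (0, 2, ph al s nn 2 m0 (y * W m0)) (0, 2, ph al s nn 2 m0 (y * h * W m0))}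
  one_mem' := ⟨fun y => by rw [mul_one], fun y _ => by rw [mul_one]; exact D.eqv.refl _⟩
  mul_mem' := by
    rintro g h ⟨g1, g2⟩ ⟨h1, h2⟩
    refine ⟨fun y => ?_, fun y hy => ?_⟩
    · rw [← mul_assoc]
      exact (g1 y).trans (h1 _)
    · rw [← mul_assoc y g h]
      exact D.eqv.trans (g2 y hy) (h2 _ ((g1 y).1 hy))
  inv_mem' := by
    rintro h ⟨h1, h2⟩
    have h3 : ∀ y, Ok 0 y ↔ Ok 0 (y * h⁻¹) := fun y => by
      have := h1 (y * h⁻¹)
      rw [inv_mul_cancel_right] at this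
      exact this.symm
    refine ⟨h3, fun y hy => ?_⟩
    have h4 := h2 _ ((h3 y).1 hy)
    rw [inv_mul_cancel_right] at h4
    exact D.eqv.symm h4

theorem LamD.ok0 (D : LamD al s zc W nn w e m0 l Ok Rel) {g : G} (hg : g ∈ K0 al s) (z : ℕ) (y : G) :
    Ok z y ↔ Ok z (y * g) := by
  refine ⟨D.K z y g hg, fun h => ?_⟩
  have := D.K z _ _ (inv_mem hg) h
  rwa [mul_inv_cancel_right] at this

/-- The crossings are in the holonomy group. -/
theorem LamD.run (D : LamD al s zc W nn w e m0 l Ok Rel) (hW : LamW al s zc W e)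
    (hU : ∀ κ, 3 ≤ κ → κ ≤ w → ∀ m, Uk al s nn κ (m + 8 * e) = zc * Uk al s nn κ m) (hc : Cols nn w) (e0 : 0 < e)
    (hw : 4 ≤ w) {z : ℕ} (hz : z ≤ 3) : Run1 al s W nn w (Hol D) ((al * al * (s⁻¹ * al)) ^ z) := by
  have h1 : al ∈ closure {al, s} := subset_closure (by simp)
  have h2 : s ∈ closure {al, s} := subset_closure (by simp)
  set V := (al * al * (s⁻¹ * al)) ^ z with hV
  have hv : V ∈ closure {al, s} := pow_mem (mul_mem (mul_mem h1 h1) (mul_mem (inv_mem h2) h1)) z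
  -- levels of the window
  have key : ∀ κ, 2 ≤ κ → κ ≤ w + 1 → ∀ m, m0 ≤ m → m + 1 ≤ m0 + 8 * e →
      Eqv (Hol D) (V * W m * s ^ nn (κ - col (m + 1)) * Lt al s m) (V * W (m + 1) * s ^ nn (κ - col (m + 1))) := by
    intro κ k0 k1 m m1 m2
    set n := nn (κ - col (m + 1)) with hn
    obtain ⟨i, hi⟩ := yz_eq (l := l) hW z
    rw [← hV] at hi
    -- the element
    have hg : V * W m * s ^ n * Lt al s m * (V * W (m + 1) * s ^ n)⁻¹ =
        V * (W m * ⁅s ^ n, Lt al s m⁆ * (W m)⁻¹) * V⁻¹ := by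
      rw [hW.st, commutatorElement_def]
      group
    have hk : V * W m * s ^ n * Lt al s m * (V * W (m + 1) * s ^ n)⁻¹ ∈ K0 al s := by
      rw [hg]
      exact K0_conj (K0_conj (commutator_mem_commutator (zpow_mem h2 _) (Lt_mem m)) (W_mem hW m)) hv
    refine ⟨fun y => D.ok0 hk 0 y, fun y hy => ?_⟩
    set h := V * W m * s ^ n * Lt al s m * (V * W (m + 1) * s ^ n)⁻¹ with hh
    have hyh : Ok 0 (y * h) := (D.ok0 hk 0 y).1 hy
    obtain ⟨b1, b2⟩ := D.base hW hU hc e0 hw hz y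
    obtain ⟨b1', b2'⟩ := D.base hW hU hc e0 hw hz (y * h)
    have c1 := D.along hW hc (by omega) hz (b1.1 hy) (m := m) m1 (by omega)
    have c2 := D.along hW hc (by omega) hz (b1'.1 hyh) (m := m + 1) (by omega) m2
    have hY : Ok z (yz zc W l z y * W m * (W m)⁻¹) := by
      rw [mul_inv_cancel_right]
      exact b1.1 hy
    have c3 := (D.cross hW hz m1 m2 hY k0 k1).2
    rw [← hn] at c3
    have e1 : yz zc W l z y * W m * (s ^ n * Lt al s m * (s ^ n)⁻¹) = yz zc W l z (y * h) * W (m + 1) := by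
      rw [hi, hi, hh]
      have hcm : Commute (zc ^ i) (V * W m * s ^ n * Lt al s m * (V * W (m + 1) * s ^ n)⁻¹) := by
        refine (zc_comm hW ?_).pow_left i
        exact mul_mem (mul_mem (mul_mem (mul_mem hv (W_mem hW m)) (zpow_mem h2 _)) (Lt_mem m))
          (inv_mem (mul_mem (mul_mem hv (W_mem hW _)) (zpow_mem h2 _)))
      have : y * (V * W m * s ^ n * Lt al s m * (V * W (m + 1) * s ^ n)⁻¹) * (zc ^ i * V) * W (m + 1) =
          y * (zc ^ i * (V * W m * s ^ n * Lt al s m * (V * W (m + 1) * s ^ n)⁻¹)) * V * W (m + 1) := by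
        rw [hcm.eq]
        simp only [mul_assoc]
      rw [this]
      group
    rw [e1] at c3
    exact D.eqv.trans (D.eqv.trans (D.eqv.trans (b2 hy) c1) c3) (D.eqv.symm (D.eqv.trans (b2' hyh) c2))
  intro κ k0 k1 m
  -- reduce to the window
  obtain ⟨j, m', hm, m1, m2⟩ : ∃ j m' : ℤ, m = m' + 8 * e * j ∧ m0 ≤ m' ∧ m' + 1 ≤ m0 + 8 * e := by
    have hp : (0 : ℤ) < 8 * e := by omega
    have a1 := Int.emod_nonneg (m - m0) hp.ne'
    have a2 := Int.emod_lt_of_pos (m - m0) hp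
    have a3 := Int.emod_add_mul_ediv (m - m0) (8 * e)
    exact ⟨(m - m0) / (8 * e), m0 + (m - m0) % (8 * e), by linarith, by omega, by omega⟩
  have h3 := key κ k0 k1 m' m1 m2
  have e1 : m + 1 = m' + 1 + 8 * e * j := by rw [hm]; ring
  rw [e1, hm, Lt_per', W_per hW, W_per hW, col_per']
  have z1 : Commute (zc ^ j) V := (zc_comm hW hv).zpow_left j
  have z2 : Commute (zc ^ j) (V * W (m' + 1) * s ^ nn (κ - col (m' + 1))) :=
    (zc_comm hW (mul_mem (mul_mem hv (W_mem hW _)) (zpow_mem h2 _))).zpow_left j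
  have z3 : Commute (zc ^ j) (V * W m' * s ^ nn (κ - col (m' + 1)) * Lt al s m') :=
    (zc_comm hW (mul_mem (mul_mem (mul_mem hv (W_mem hW _)) (zpow_mem h2 _)) (Lt_mem _))).zpow_left j
  have e2 : V * (zc ^ j * W m') * s ^ nn (κ - col (m' + 1)) * Lt al s m' =
      V * W m' * s ^ nn (κ - col (m' + 1)) * Lt al s m' * zc ^ j := by
    rw [← z3.eq, ← mul_assoc V, ← z1.eq]
    simp only [mul_assoc]
  have e3 : V * (zc ^ j * W (m' + 1)) * s ^ nn (κ - col (m' + 1)) =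
      V * W (m' + 1) * s ^ nn (κ - col (m' + 1)) * zc ^ j := by
    rw [← z2.eq, ← mul_assoc V, ← z1.eq]
    simp only [mul_assoc]
  rw [e2, e3]
  exact h3.mul _

end Four

/-- The undrifted strands. -/
theorem Uk_per [Finite G] (N : Subgroup G) [N.Normal] (hN : IsCyclic N) (hco : (Nat.card N).Coprime N.index)
    {a b t : G} (ha : a * a = 1) (hb : b * b = 1) (ht : t * t = 1) {e : ℕ} (he : N.index ∣ e) {W : ℤ → G} {zc : G}
    (hW : LamW (a * t) (a * b) zc W e) {nn : ℤ → ℤ} {w : ℤ} (hc : Cols nn w) {κ : ℤ} (h0 : 3 ≤ κ) (h1 : κ ≤ w) (m : ℤ) :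
    Uk (a * t) (a * b) nn κ (m + 8 * e) = zc * Uk (a * t) (a * b) nn κ m := by
  obtain ⟨z, -, -, -, hL, hS, -⟩ := closing N hN hco ha hb ht he
  have ib : b⁻¹ = b := inv_eq_of_mul_eq_one_left hb
  -- `z = zc`
  have hz : z = zc := by
    have hWp : ∀ n : ℕ, W (0 + n) = W 0 * pr (Lt (a * t) (a * b)) 0 n := by
      intro n
      induction n with
      | zero => simp [pr]
      | succ n ih =>
        have e1 : (0 : ℤ) + ((n + 1 : ℕ) : ℤ) = 0 + n + 1 := by push_cast; ring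
        rw [e1, hW.st, ih, mul_assoc]
        rfl
    have h1 := hWp (8 * e)
    have h2 := hW.per 0
    have e1 : (0 : ℤ) + ((8 * e : ℕ) : ℤ) = 0 + 8 * e := by push_cast; ring
    rw [e1, h2, hW.z, Lt_LG ha hb, hL, mul_one, one_mul] at h1
    exact h1.symm
  have hP : Pk (a * t) (a * b) nn κ (m + 8 * e) = zc * Pk (a * t) (a * b) nn κ m := by
    unfold Pk
    refine gz_per _ _ _ (fun m => ?_) ?_ m
    · have h2 := per_zpow (f := stw (a * t) (a * b) nn κ) (p := 8) (z := 1) (fun m => by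
        rw [one_mul]
        exact stw_per m) m e
      rw [one_zpow, one_mul] at h2
      exact h2
    · have h3 := gz_nat (stw (a * t) (a * b) nn κ) 0 (8 * e)
      push_cast at h3
      rw [h3, stw_SG ha hb hc h0 h1, hS, hz]
  have hz1 : Commute zc (a * b) := hW.cs
  have hcol := col_per' m e 1
  rw [mul_one] at hcol
  unfold Uk
  rw [hP, hcol, ← mul_assoc ((a * b) ^ nn κ) zc, (hz1.zpow_right (nn κ)).symm.eq]
  simp only [mul_assoc]

/-- ROW LAM: FOUR RUNS ARE CONNECTED. -/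
theorem lamD_conn [Finite G] (N : Subgroup G) [N.Normal] (hN : IsCyclic N) (hco : (Nat.card N).Coprime N.index)
    {a b t : G} (ha : a * a = 1) (hb : b * b = 1) (ht : t * t = 1) {e : ℕ} (he : N.index ∣ e) (e0 : 0 < e) {W : ℤ → G}
    {zc : G} (hW : LamW (a * t) (a * b) zc W e) {nn : ℤ → ℤ} {w : ℤ} (hc : Cols nn w) (hw : (e : ℤ) + 2 ≤ w) (hw4 : 4 ≤ w)
    {m0 : ℤ} {l : ℕ → ℕ} {Ok : ℕ → G → Prop} {Rel : ℕ × ℤ × G → ℕ × ℤ × G → Prop}
    (D : LamD (a * t) (a * b) zc W nn w e m0 l Ok Rel)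
    (hF : ∀ y y', Ok 0 y → Ok 0 y' → y⁻¹ * y' ∈ K0 (a * t) (a * b))
    {z z' : ℕ} (hz : z ≤ 3) (hz' : z' ≤ 3) {κ κ' : ℤ} (k0 : 2 ≤ κ) (k1 : κ ≤ w + 1) (k0' : 2 ≤ κ') (k1' : κ' ≤ w + 1)
    {x x' : G} (hx : Ok z (x * ((a * b) ^ nn κ)⁻¹)) (hx' : Ok z' (x' * ((a * b) ^ nn κ')⁻¹)) :
    Rel (z, κ, x) (z', κ', x') := by
  have hU : ∀ κ, 3 ≤ κ → κ ≤ w → ∀ m, Uk (a * t) (a * b) nn κ (m + 8 * e) = zc * Uk (a * t) (a * b) nn κ m :=
    fun κ h0 h1 m => Uk_per N hN hco ha hb ht he hW hc h0 h1 m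
  have hK : K0 (a * t) (a * b) ≤ Hol D := Subgroup.commutator_le.2 fun x hx y hy =>
    lam_group N hN hco ha hb ht he hW hc e0 hw (fun z hz => D.run hW hU hc e0 hw4 hz) hx hy
  set al := a * t with hal
  set s := a * b with hs
  -- every node is joined to the base row
  have key : ∀ z : ℕ, z ≤ 3 → ∀ κ : ℤ, 2 ≤ κ → κ ≤ w + 1 → ∀ x : G, Ok z (x * (s ^ nn κ)⁻¹) →
      ∃ y, Ok 0 y ∧ Rel (0, 2, ph al s nn 2 m0 (y * W m0)) (z, κ, x) := by
    intro z hz κ k0 k1 x hx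
    set Y := x * (s ^ nn κ)⁻¹ * Uk al s nn κ m0 with hY
    have e1 : ph al s nn κ m0 Y = x := by
      rw [hY]
      unfold ph
      group
    have h1 : Ok z (Y * (W m0)⁻¹) := by
      have := D.K z _ _ (Uk_W (nn := nn) hW κ m0) hx
      rw [hY, mul_assoc]
      exact this
    have h2 := D.row hW hz (m := m0) le_rfl (by omega) h1 k0 k1
    rw [e1] at h2
    obtain ⟨i, hi⟩ := yz_eq (l := l) hW z
    set y := Y * (W m0)⁻¹ * (zc ^ i * (al * al * (s⁻¹ * al)) ^ z)⁻¹ with hy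
    have e2 : yz zc W l z y = Y * (W m0)⁻¹ := by
      rw [hi, hy, inv_mul_cancel_right]
    obtain ⟨b1, b2⟩ := D.base hW hU hc e0 hw4 hz y
    rw [e2] at b1 b2
    rw [inv_mul_cancel_right] at b2
    have hyok : Ok 0 y := b1.2 h1
    exact ⟨y, hyok, D.eqv.trans (b2 hyok) h2⟩
  obtain ⟨y, hy, h1⟩ := key z hz κ k0 k1 x hx
  obtain ⟨y', hy', h1'⟩ := key z' hz' κ' k0' k1' x' hx'
  have h2 := (hK (hF y y' hy hy')).2 y hy
  rw [← mul_assoc, mul_inv_cancel, one_mul] at h2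
  exact D.eqv.trans (D.eqv.symm h1) (D.eqv.trans h2 h1')

end Pool.Agent.Lib.MP_688fd0_co.SQ5.H48
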